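import Pool.Agent.H306R2.RZ.Defs
import Pool.Agent.H509R2.RZ_P1
import Pool.Agent.H66R2.RZ_P4
import Pool.Agent.H139R2.RZ_M3
import Pool.Agent.H310R2.RZ_ML
import Pool.Agent.H310R2.RZ_MLlim
import Pool.Agent.H992R2.RZ_M3s
import Pool.Agent.H727R2.RZ_MZ
import Pool.Agent.H881R2.RZ_F1
import Pool.Agent.H930R3.RZ_ID
import Pool.Agent.H375R3.RZ_FR
import Pool.Agent.H429R3.RZ_M3e
import Pool.Agent.H83R2.RZ_EPg

set_option autoImplicit false

/-! Project RZ, task LIM1: asymptotics of the mollified first moment. -/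

namespace Pool.Agent.H884R2.RZ

open Finset Filter Topology MeasureTheory
open Pool.Agent.H306R2.RZ

noncomputable section

theorem wt_mono {s t : ℝ} (h : s ≤ t) {w : ℝ → ℝ} (hw : Wt s w) : Wt t w :=
  ⟨hw.smooth, fun y hy => ⟨(hw.supp y hy).1, (hw.supp y hy).2.trans h⟩⟩

theorem wt_bdd {s : ℝ} {w : ℝ → ℝ} (hw : Wt s w) : ∃ B : ℝ, 0 ≤ B ∧ ∀ y, |w y| ≤ B := by
  obtain ⟨C, hC⟩ := (isCompact_Icc (a := (-1 : ℝ)) (b := s)).exists_bound_of_continuousOn
    hw.smooth.continuous.continuousOn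
  refine ⟨max C 0, le_max_right _ _, fun y => ?_⟩
  by_cases h : w y = 0
  · rw [h, abs_zero]; exact le_max_right _ _
  · exact (hC y (hw.supp y h)).trans (le_max_left _ _)

theorem wt_supp {s L : ℝ} (hL : 0 < L) {w : ℝ → ℝ} (hw : Wt s w) {n : ℕ} (hn : n ≠ 0)
    (h : w (Real.log n / L) ≠ 0) : n ≤ ⌊Real.exp (s * L)⌋₊ := by
  have h1 := (hw.supp _ h).2
  rw [div_le_iff₀ hL] at h1
  apply Nat.le_floor
  rw [← Real.log_le_iff_le_exp (by positivity)]
  exact h1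

/-- the test function kills large `d` -/
theorem tf_finite (F : ℝ → ℝ) (hF : TF F) (X : ℝ) (hX : 0 < X) :
    ∃ D : ℕ, ∀ d : ℕ, D ≤ d → F ((d : ℝ) / X) = 0 := by
  obtain ⟨R, hR⟩ := hF.cpt.isBounded.exists_norm_le
  obtain ⟨D, hD⟩ := exists_nat_gt (R * X)
  refine ⟨D, fun d hd => ?_⟩
  by_contra hne
  have h1 : ((d : ℝ) / X) ∈ tsupport F := subset_tsupport _ hne
  have h2 := hR _ h1
  rw [Real.norm_eq_abs, abs_of_nonneg (by positivity), div_le_iff₀ hX] at h2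
  have h3 : (D : ℝ) ≤ d := by exact_mod_cast hd
  linarith

theorem EF_eq_sum (F : ℝ → ℝ) (X : ℝ) (D : ℕ) (hD : ∀ d : ℕ, D ≤ d → F ((d : ℝ) / X) = 0)
    (f : ℕ → ℝ) :
    EF F X f = (∑ d ∈ range D, if Odd d then F ((d : ℝ) / X) * f d else 0) / X := by
  rw [EF, tsum_eq_sum (s := range D)]
  intro d hd
  rw [mem_range, not_lt] at hd
  rw [hD d hd, zero_mul, ite_self]

theorem EF_sum {ι : Type*} (F : ℝ → ℝ) (hF : TF F) (X : ℝ) (hX : 0 < X) (S : Finset ι)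
    (a : ι → ℝ) (g : ι → ℕ → ℝ) :
    EF F X (fun d => ∑ i ∈ S, a i * g i d) = ∑ i ∈ S, a i * EF F X (g i) := by
  obtain ⟨D, hD⟩ := tf_finite F hF X hX
  rw [EF_eq_sum F X D hD]
  have : ∀ i, EF F X (g i) = (∑ d ∈ range D, if Odd d then F ((d : ℝ) / X) * g i d else 0) / X :=
    fun i => EF_eq_sum F X D hD _
  simp only [this]
  rw [Finset.sum_div]
  have : ∀ i, a i * ((∑ d ∈ range D, if Odd d then F ((d : ℝ) / X) * g i d else 0) / X) =
      ∑ d ∈ range D, a i * ((if Odd d then F ((d : ℝ) / X) * g i d else 0) / X) := by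
    intro i
    rw [Finset.sum_div, Finset.mul_sum]
  simp only [this]
  rw [Finset.sum_comm]
  refine Finset.sum_congr rfl fun d _ => ?_
  by_cases hd : Odd d
  · simp only [hd, if_true]
    rw [Finset.mul_sum, Finset.sum_div]
    refine Finset.sum_congr rfl fun i _ => ?_
    ring
  · simp [hd]

theorem js_mul (k : ℤ) {m n : ℕ} (hm : m ≠ 0) (hn : n ≠ 0) : js k (m * n) = js k m * js k n := by
  haveI : NeZero m := ⟨hm⟩
  haveI : NeZero n := ⟨hn⟩
  rw [js, js, js, jacobiSym.mul_right]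
  push_cast
  ring

theorem abs_js_le (k : ℤ) (n : ℕ) : |js k n| ≤ 1 := by
  rw [js]
  rcases jacobiSym.trichotomy k n with h | h | h <;> simp [h]

theorem abs_cas_le (t : ℝ) : |cas t| ≤ 2 := by
  rw [cas]
  calc |Real.cos t + Real.sin t| ≤ |Real.cos t| + |Real.sin t| := abs_add_le _ _
    _ ≤ 1 + 1 := add_le_add (Real.abs_cos_le_one t) (Real.abs_sin_le_one t)
    _ = 2 := by norm_num

theorem abs_Gk_le (k : ℤ) (n : ℕ) : |Gk k n| ≤ 2 * n := by
  rw [Gk]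
  calc _ ≤ ∑ r ∈ range n, |js (r : ℤ) n * cas (2 * Real.pi * (k : ℝ) * (r : ℝ) / (n : ℝ))| :=
        Finset.abs_sum_le_sum_abs _ _
    _ ≤ ∑ _r ∈ range n, (2 : ℝ) := by
        refine Finset.sum_le_sum fun r _ => ?_
        rw [abs_mul]
        calc _ ≤ 1 * 2 := mul_le_mul (abs_js_le _ _) (abs_cas_le _) (abs_nonneg _) zero_le_one
          _ = 2 := by norm_num
    _ = 2 * n := by rw [Finset.sum_const, card_range, nsmul_eq_mul]; ring

/-- coefficient of `(n, l)` -/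
def cf (q : ℕ) (L : ℝ) (w Q : ℝ → ℝ) (p : ℕ × ℕ) : ℝ :=
  if Nat.Coprime p.1 q ∧ Nat.Coprime p.2 q then
    ((ArithmeticFunction.moebius p.2 : ℤ) : ℝ) / (Real.sqrt p.1 * Real.sqrt p.2) *
      (w (Real.log p.1 / L) * Q (Real.log p.2 / L)) else 0

theorem not_coprime_zero {q : ℕ} (hq : Even q) : ¬ Nat.Coprime 0 q := by
  rw [Nat.coprime_zero_left]
  rintro rfl
  exact absurd hq (by decide)

theorem odd_of_coprime {q n : ℕ} (hq : Even q) (h : Nat.Coprime n q) : Odd n := by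
  rw [← Nat.not_even_iff_odd]
  intro hn
  have h2 : 2 ∣ Nat.gcd n q := Nat.dvd_gcd hn.two_dvd hq.two_dvd
  rw [h] at h2
  omega

theorem Nd_eq (q : ℕ) (hq : Even q) (L : ℝ) (hL : 0 < L) (s : ℝ) (w : ℝ → ℝ) (hw : Wt s w) (d : ℕ) :
    Nd q L w d = ∑ n ∈ Icc 1 ⌊Real.exp (s * L)⌋₊, if Nat.Coprime n q then
      js (8 * (d : ℤ)) n / Real.sqrt n * w (Real.log n / L) else 0 := by
  rw [Nd, tsum_eq_sum]
  intro n hn
  by_cases hc : Nat.Coprime n q
  · rw [if_pos hc]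
    have hn0 : n ≠ 0 := by
      rintro rfl
      exact not_coprime_zero hq hc
    by_cases hw0 : w (Real.log n / L) = 0
    · rw [hw0, mul_zero]
    · exact absurd (mem_Icc.2 ⟨Nat.one_le_iff_ne_zero.2 hn0, wt_supp hL hw hn0 hw0⟩) hn
  · rw [if_neg hc]

theorem Md_eq (q : ℕ) (hq : Even q) (L : ℝ) (hL : 0 < L) (s : ℝ) (w : ℝ → ℝ) (hw : Wt s w) (d : ℕ) :
    Md q L w d = ∑ n ∈ Icc 1 ⌊Real.exp (s * L)⌋₊, if Nat.Coprime n q then
      ((ArithmeticFunction.moebius n : ℤ) : ℝ) *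
      js (8 * (d : ℤ)) n / Real.sqrt n * w (Real.log n / L) else 0 := by
  rw [Md, tsum_eq_sum]
  intro n hn
  by_cases hc : Nat.Coprime n q
  · rw [if_pos hc]
    have hn0 : n ≠ 0 := by
      rintro rfl
      exact not_coprime_zero hq hc
    by_cases hw0 : w (Real.log n / L) = 0
    · rw [hw0, mul_zero]
    · exact absurd (mem_Icc.2 ⟨Nat.one_le_iff_ne_zero.2 hn0, wt_supp hL hw hn0 hw0⟩) hn
  · rw [if_neg hc]

theorem prod_eq (q : ℕ) (hq : Even q) (L : ℝ) (hL : 0 < L) (s θ : ℝ) (w Q : ℝ → ℝ) (hw : Wt s w)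
    (hQ : Wt θ Q) (d : ℕ) :
    Nd q L w d * Md q L Q d =
      ∑ p ∈ Icc 1 ⌊Real.exp (s * L)⌋₊ ×ˢ Icc 1 ⌊Real.exp (θ * L)⌋₊,
        cf q L w Q p * js (8 * (d : ℤ)) (p.1 * p.2) := by
  rw [Nd_eq q hq L hL s w hw, Md_eq q hq L hL θ Q hQ, Finset.sum_mul_sum, Finset.sum_product]
  refine Finset.sum_congr rfl fun n hn => Finset.sum_congr rfl fun l hl => ?_
  rw [mem_Icc] at hn hl
  rw [cf]
  by_cases h1 : Nat.Coprime n q
  · by_cases h2 : Nat.Coprime l q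
    · rw [if_pos h1, if_pos h2, if_pos ⟨h1, h2⟩, js_mul _ (by omega) (by omega)]
      have hn0 : Real.sqrt (n : ℝ) ≠ 0 := by
        apply (Real.sqrt_pos.2 _).ne'
        exact_mod_cast hn.1
      have hl0 : Real.sqrt (l : ℝ) ≠ 0 := by
        apply (Real.sqrt_pos.2 _).ne'
        exact_mod_cast hl.1
      field_simp
    · have h3 : ¬ (Nat.Coprime (n, l).1 q ∧ Nat.Coprime (n, l).2 q) := fun h => h2 h.2
      rw [if_neg h2, if_neg h3, mul_zero, zero_mul]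
  · have h3 : ¬ (Nat.Coprime (n, l).1 q ∧ Nat.Coprime (n, l).2 q) := fun h => h1 h.1
    rw [if_neg h1, if_neg h3, zero_mul, zero_mul]

theorem TO_eq (F : ℝ → ℝ) (hF : TF F) (X : ℝ) (hX : 0 < X) (q : ℕ) (hq : Even q) (L : ℝ)
    (hL : 0 < L) (s θ : ℝ) (w Q : ℝ → ℝ) (hw : Wt s w) (hQ : Wt θ Q) :
    TO F X q L w Q = ∑ p ∈ Icc 1 ⌊Real.exp (s * L)⌋₊ ×ˢ Icc 1 ⌊Real.exp (θ * L)⌋₊,
        cf q L w Q p * EF F X (fun d => js (8 * (d : ℤ)) (p.1 * p.2)) := by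
  rw [TO]
  simp only [prod_eq q hq L hL s θ w Q hw hQ]
  exact EF_sum F hF X hX _ (fun p => cf q L w Q p) (fun p d => js (8 * (d : ℤ)) (p.1 * p.2))

theorem cf_abs (q : ℕ) (L : ℝ) (w Q : ℝ → ℝ) (B1 B2 : ℝ) (hB1 : 0 ≤ B1) (h1 : ∀ y, |w y| ≤ B1)
    (h2 : ∀ y, |Q y| ≤ B2) (hB2 : 0 ≤ B2)
    (p : ℕ × ℕ) (hp1 : 1 ≤ p.1) (hp2 : 1 ≤ p.2) : |cf q L w Q p| ≤ B1 * B2 := by
  rw [cf]
  by_cases h : Nat.Coprime p.1 q ∧ Nat.Coprime p.2 q
  · rw [if_pos h, abs_mul, abs_mul, abs_div]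
    have hs1 : (1 : ℝ) ≤ Real.sqrt p.1 := by
      rw [Real.one_le_sqrt]; exact_mod_cast hp1
    have hs2 : (1 : ℝ) ≤ Real.sqrt p.2 := by
      rw [Real.one_le_sqrt]; exact_mod_cast hp2
    have hm : |((ArithmeticFunction.moebius p.2 : ℤ) : ℝ)| ≤ 1 := by
      have := ArithmeticFunction.abs_moebius_le_one (n := p.2)
      exact_mod_cast this
    have h3 : |((ArithmeticFunction.moebius p.2 : ℤ) : ℝ)| / |Real.sqrt p.1 * Real.sqrt p.2| ≤ 1 := by
      rw [div_le_one (by positivity)]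
      calc _ ≤ 1 := hm
        _ = 1 * 1 := by norm_num
        _ ≤ Real.sqrt p.1 * Real.sqrt p.2 := mul_le_mul hs1 hs2 zero_le_one (by linarith)
        _ ≤ _ := le_abs_self _
    calc _ ≤ 1 * (B1 * B2) := by
          apply mul_le_mul h3 _ (by positivity) zero_le_one
          exact mul_le_mul (h1 _) (h2 _) (abs_nonneg _) hB1
      _ = B1 * B2 := one_mul _
  · rw [if_neg h, abs_zero]; positivity

/-- the error of the term `k = 0` -/
theorem EF_error (F : ℝ → ℝ) (hF : TF F) (A : ℕ) (hA : Even A) (hA2 : 2 ≤ A) :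
    ∃ C : ℝ, 0 ≤ C ∧ ∀ (X : ℝ) (n : ℕ), 0 < X → Odd n →
      |EF F X (fun d => js (8 * (d : ℤ)) n) - D0 F n| ≤ C * ((n : ℝ) / X) ^ A := by
  obtain ⟨C, hC⟩ := (Pool.Agent.H881R2.RZ.F1 F hF).2 0 A
  have hC0 : 0 ≤ C := by
    have := (abs_nonneg _).trans (hC 0)
    rwa [abs_zero, add_zero, one_pow, div_one] at this
  have hS : Summable (fun k : ℤ => 1 / (k : ℝ) ^ A) :=
    Real.summable_one_div_int_pow.2 (by omega)
  have hnn : ∀ k : ℤ, 0 ≤ 1 / (k : ℝ) ^ A := fun k => by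
    have := hA.pow_nonneg (k : ℝ)
    positivity
  refine ⟨C * 2 ^ A * ∑' k : ℤ, 1 / (k : ℝ) ^ A, ?_, ?_⟩
  · have : 0 ≤ ∑' k : ℤ, 1 / (k : ℝ) ^ A := tsum_nonneg hnn
    positivity
  intro X n hX hn
  obtain ⟨hsum, heq⟩ := Pool.Agent.H509R2.RZP1.P1 F hF X hX n hn
  have hn0 : (0 : ℝ) < n := by
    rcases hn with ⟨m, rfl⟩
    positivity
  rw [heq, D0, hsum.tsum_eq_add_tsum_ite 0]
  have h0 : (-1 : ℝ) ^ (0 : ℤ).natAbs * Gk 0 n * Ft F (((0 : ℤ) : ℝ) * X / (2 * n)) =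
      Gk 0 n * Ft F 0 := by
    simp
  rw [h0, add_div, add_sub_cancel_left, abs_div, abs_of_pos (show (0 : ℝ) < 2 * n by positivity),
    div_le_iff₀ (by positivity)]
  have hb : ∀ k : ℤ, |if k = 0 then 0 else
      (-1 : ℝ) ^ k.natAbs * Gk k n * Ft F ((k : ℝ) * X / (2 * n))| ≤
        (2 * n * C * (2 * n / X) ^ A) * (1 / (k : ℝ) ^ A) := by
    intro k
    by_cases hk : k = 0
    · rw [if_pos hk, abs_zero]
      have := hnn k
      positivity
    · rw [if_neg hk, abs_mul, abs_mul, abs_pow, abs_neg, abs_one, one_pow, one_mul]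
      have hk' : (k : ℝ) ≠ 0 := by exact_mod_cast hk
      have h1 := hC ((k : ℝ) * X / (2 * n))
      rw [iteratedDeriv_zero] at h1
      have h2 : |(k : ℝ) * X / (2 * n)| ≤ 1 + |(k : ℝ) * X / (2 * n)| := by linarith
      have h3 : 0 < |(k : ℝ) * X / (2 * n)| := by
        apply abs_pos.2
        positivity
      have h4 : |Ft F ((k : ℝ) * X / (2 * n))| ≤ C / |(k : ℝ) * X / (2 * n)| ^ A :=
        h1.trans (div_le_div_of_nonneg_left hC0 (pow_pos h3 _) (pow_le_pow_left₀ h3.le h2 _))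
      calc |Gk k n| * |Ft F ((k : ℝ) * X / (2 * n))| ≤
            (2 * n) * (C / |(k : ℝ) * X / (2 * n)| ^ A) :=
            mul_le_mul (abs_Gk_le k n) h4 (abs_nonneg _) (by positivity)
        _ = _ := by
            rw [hA.pow_abs]
            have e1 : (2 * (n : ℝ) / X) * ((k : ℝ) * X / (2 * n)) = k := by field_simp
            have e2 : (2 * (n : ℝ) / X) ^ A * ((k : ℝ) * X / (2 * n)) ^ A = (k : ℝ) ^ A := by
              rw [← mul_pow, e1]
            rw [← e2]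
            have h5 : (2 * (n : ℝ) / X) ^ A ≠ 0 := by positivity
            have h6 : ((k : ℝ) * X / (2 * n)) ^ A ≠ 0 := by positivity
            field_simp
  have hbs : Summable (fun k : ℤ => (2 * n * C * (2 * n / X) ^ A) * (1 / (k : ℝ) ^ A)) :=
    hS.mul_left _
  have h5 : |∑' k : ℤ, if k = 0 then 0 else
      (-1 : ℝ) ^ k.natAbs * Gk k n * Ft F ((k : ℝ) * X / (2 * n))| ≤
      ∑' k : ℤ, (2 * n * C * (2 * n / X) ^ A) * (1 / (k : ℝ) ^ A) := by
    rw [← Real.norm_eq_abs]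
    exact tsum_of_norm_bounded hbs.hasSum (fun k => by rw [Real.norm_eq_abs]; exact hb k)
  refine h5.trans (le_of_eq ?_)
  rw [tsum_mul_left, div_pow, div_pow, mul_pow]
  ring

/-- the main part of the first moment -/
theorem main_part (F : ℝ → ℝ) (q : ℕ) (hq : Even q) (L : ℝ)
    (hL : 0 < L) (s θ : ℝ) (w Q : ℝ → ℝ) (hw : Wt s w) (hQ : Wt θ Q) :
    ∑ p ∈ Icc 1 ⌊Real.exp (s * L)⌋₊ ×ˢ Icc 1 ⌊Real.exp (θ * L)⌋₊,
        cf q L w Q p * D0 F (p.1 * p.2) =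
      1 / 2 * Ft F 0 * ∑' a : Fin 2 → ℕ, t3c q a * (w (Real.log (a 0) / L) * Q (Real.log (a 1) / L)) := by
  have e : ∑' a : Fin 2 → ℕ, t3c q a * (w (Real.log (a 0) / L) * Q (Real.log (a 1) / L)) =
      ∑' p : ℕ × ℕ, t3c q ![p.1, p.2] * (w (Real.log p.1 / L) * Q (Real.log p.2 / L)) := by
    rw [← (finTwoArrowEquiv ℕ).symm.tsum_eq]
    rfl
  rw [e, tsum_eq_sum (s := Icc 1 ⌊Real.exp (s * L)⌋₊ ×ˢ Icc 1 ⌊Real.exp (θ * L)⌋₊), Finset.mul_sum]
  · refine Finset.sum_congr rfl fun p hp => ?_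
    rw [mem_product, mem_Icc, mem_Icc] at hp
    obtain ⟨⟨hp1, -⟩, ⟨hp2, -⟩⟩ := hp
    have hpr : ∏ i, (![p.1, p.2] : Fin 2 → ℕ) i = p.1 * p.2 := by
      rw [Fin.prod_univ_two]; rfl
    have hall : (∀ i, (![p.1, p.2] : Fin 2 → ℕ) i ≠ 0 ∧ Nat.Coprime ((![p.1, p.2] : Fin 2 → ℕ) i) q) ↔
        (Nat.Coprime p.1 q ∧ Nat.Coprime p.2 q) := by
      constructor
      · intro h
        exact ⟨(h 0).2, (h 1).2⟩
      · rintro ⟨h1, h2⟩ i
        fin_cases i
        · exact ⟨by simpa using (by omega : p.1 ≠ 0), h1⟩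
        · exact ⟨by simpa using (by omega : p.2 ≠ 0), h2⟩
    rw [cf, t3c, hpr, D0]
    by_cases hc : Nat.Coprime p.1 q ∧ Nat.Coprime p.2 q
    · have hodd : Odd (p.1 * p.2) := (odd_of_coprime hq hc.1).mul (odd_of_coprime hq hc.2)
      rw [if_pos hc, Pool.Agent.H66R2.RZP4.P4a _ hodd]
      by_cases hs : IsSquare (p.1 * p.2)
      · rw [if_pos hs, if_pos ⟨hall.2 hc, hs⟩]
        have h1 : (0 : ℝ) < p.1 := by exact_mod_cast hp1
        have h2 : (0 : ℝ) < p.2 := by exact_mod_cast hp2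
        have h3 : ((p.1 * p.2 : ℕ) : ℝ) = (p.1 : ℝ) * p.2 := by push_cast; ring
        have h4 : (![p.1, p.2] : Fin 2 → ℕ) 1 = p.2 := rfl
        rw [h4, h3, Real.sqrt_mul h1.le]
        have h5 : 0 < Real.sqrt p.1 := Real.sqrt_pos.2 h1
        have h6 : 0 < Real.sqrt p.2 := Real.sqrt_pos.2 h2
        field_simp
      · rw [if_neg hs, if_neg (fun h => hs h.2)]
        ring
    · rw [if_neg hc, if_neg (fun h => hc (hall.1 h.1))]
      ring
  · intro p hp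
    rw [t3c]
    split_ifs with h
    · have h0 : p.1 ≠ 0 := (h.1 0).1
      have h1 : p.2 ≠ 0 := (h.1 1).1
      by_cases hw0 : w (Real.log p.1 / L) = 0
      · rw [hw0, zero_mul, mul_zero]
      by_cases hQ0 : Q (Real.log p.2 / L) = 0
      · rw [hQ0, mul_zero, mul_zero]
      refine absurd ?_ hp
      rw [mem_product, mem_Icc, mem_Icc]
      exact ⟨⟨Nat.one_le_iff_ne_zero.2 h0, wt_supp hL hw h0 hw0⟩,
        ⟨Nat.one_le_iff_ne_zero.2 h1, wt_supp hL hQ h1 hQ0⟩⟩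
    · rw [zero_mul]

/-- limit of the main part -/
theorem main_lim (q : ℕ) (hq0 : q ≠ 0) (s : ℝ) (w Q : ℝ → ℝ) (hw : Wt s w) (hQ : Wt s Q) :
    Tendsto (fun L : ℝ => ∑' a : Fin 2 → ℕ,
      t3c q a * (w (Real.log (a 0) / L) * Q (Real.log (a 1) / L))) atTop (𝓝 (mn w Q / 2)) := by
  obtain ⟨A, hA1, ⟨CA, hA2⟩, hA3⟩ := Pool.Agent.H139R2.RZM3.M3' Pool.Agent.H83R2.RZ.EPg (Pool.Agent.H429R3.RZM3e.M3e_of Pool.Agent.H992R2.RZM3s.M3s) q hq0
  obtain ⟨⟨C, hC, hz⟩, hzl⟩ := Pool.Agent.H727R2.RZMZ.MZ 2 (by norm_num)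
  have hre : ∀ (τ : Fin 2 → ℝ) (i : Fin 2), (0 : ℝ) < (((1 : ℝ) : ℂ) + τ i * Complex.I).re := by
    intro τ i
    simp
  have hCA : 0 ≤ CA := (norm_nonneg _).trans (hA2 (fun _ => 1) (fun i => by simp))
  set D : ℝ → (Fin 2 → ℝ) → ℂ := fun L τ =>
    DD3 q (fun i => (((1 : ℝ) : ℂ) + τ i * Complex.I) / (L : ℂ)) with hD
  have hsum : ∀ L : ℝ, 0 < L → Summable (fun a : Fin 2 → ℕ =>
      ‖((t3c q a : ℝ) : ℂ)‖ * ∏ i, (a i : ℝ) ^ (-((1 : ℝ) / L))) := by
    intro L hL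
    have := Pool.Agent.H992R2.RZM3s.M3s q (1 / L) (by positivity)
    refine this.congr fun a => ?_
    rw [Complex.norm_real, Real.norm_eq_abs]
  have h0 : ∀ a : Fin 2 → ℕ, (∃ i, a i = 0) → ((t3c q a : ℝ) : ℂ) = 0 := by
    rintro a ⟨i, hi⟩
    rw [t3c, if_neg (fun h => (h.1 i).1 hi), Complex.ofReal_zero]
  have hML := fun (L : ℝ) (hL : 0 < L) => Pool.Agent.H310R2.RZML.ML Pool.Agent.H375R3.RZFR.FR 2 (fun _ => 1) (fun _ => one_pos)
    (fun a => ((t3c q a : ℝ) : ℂ)) h0 L hL (hsum L hL) ![w, Q] s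
    (by intro i; fin_cases i; exacts [hw, hQ])
  have hDre : ∀ L : ℝ, 0 < L → ∀ (τ : Fin 2 → ℝ) (i : Fin 2),
      0 < ((((1 : ℝ) : ℂ) + τ i * Complex.I) / (L : ℂ)).re := by
    intro L hL τ i
    rw [Complex.div_ofReal_re]
    exact div_pos (hre τ i) hL
  have hDeq : ∀ L : ℝ, 0 < L → ∀ τ : Fin 2 → ℝ, D L τ =
      riemannZeta (1 + (2 * (((1 : ℝ) : ℂ) + τ 0 * Complex.I)) / (L : ℂ)) *
      (riemannZeta (1 + ((((1 : ℝ) : ℂ) + τ 0 * Complex.I) + (((1 : ℝ) : ℂ) + τ 1 * Complex.I)) /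
        (L : ℂ)))⁻¹ * A (fun i => (((1 : ℝ) : ℂ) + τ i * Complex.I) / (L : ℂ)) := by
    intro L hL τ
    change DD3 q (fun i => (((1 : ℝ) : ℂ) + τ i * Complex.I) / (L : ℂ)) = _
    rw [hA1 _ (hDre L hL τ)]
    have e1 : 2 * ((((1 : ℝ) : ℂ) + τ 0 * Complex.I) / (L : ℂ)) =
      (2 * (((1 : ℝ) : ℂ) + τ 0 * Complex.I)) / (L : ℂ) := by ring
    have e2 : (((1 : ℝ) : ℂ) + τ 0 * Complex.I) / (L : ℂ) + (((1 : ℝ) : ℂ) + τ 1 * Complex.I) / (L : ℂ) =
      ((((1 : ℝ) : ℂ) + τ 0 * Complex.I) + (((1 : ℝ) : ℂ) + τ 1 * Complex.I)) / (L : ℂ) := by ring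
    rw [e1, e2]
  have hlim := Pool.Agent.H310R2.RZML.MLlim Pool.Agent.H375R3.RZFR.FR 2 (fun _ => 1) D
    (fun τ => ((1 + τ 0 * Complex.I) + (1 + τ 1 * Complex.I)) / (2 * (1 + τ 0 * Complex.I))) 1
    (C * C * CA) 2
    (fun L hL => (hML L (by linarith)).2.aestronglyMeasurable)
    (by
      intro L hL τ
      have hL0 : 0 < L := by linarith
      rw [hDeq L hL0 τ, norm_mul, norm_mul]
      have h1 := (hz L (2 * (((1 : ℝ) : ℂ) + τ 0 * Complex.I)) hL (by simp)).1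
      have h2 := (hz L ((((1 : ℝ) : ℂ) + τ 0 * Complex.I) + (((1 : ℝ) : ℂ) + τ 1 * Complex.I)) hL
        (by simp; try norm_num)).2
      have him : ((((1 : ℝ) : ℂ) + τ 0 * Complex.I) + (((1 : ℝ) : ℂ) + τ 1 * Complex.I)).im =
        τ 0 + τ 1 := by simp
      rw [him] at h2
      have h3 := hA2 (fun i => (((1 : ℝ) : ℂ) + τ i * Complex.I) / (L : ℂ)) (hDre L hL0 τ)
      have h4 : (1 + |τ 0 + τ 1|) ^ 2 ≤ ∏ i, (1 + |τ i|) ^ 2 := by
        rw [Fin.prod_univ_two, ← mul_pow]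
        apply pow_le_pow_left₀ (by positivity)
        have := abs_add_le (τ 0) (τ 1)
        nlinarith [mul_nonneg (abs_nonneg (τ 0)) (abs_nonneg (τ 1))]
      calc _ ≤ (C * L) * (C * (1 + |τ 0 + τ 1|) ^ 2 / L) * CA := by
            apply mul_le_mul (mul_le_mul h1 h2 (norm_nonneg _) (by positivity)) h3 (norm_nonneg _)
              (by positivity)
        _ = (C * C * CA) * (1 + |τ 0 + τ 1|) ^ 2 := by
            field_simp
        _ ≤ _ := mul_le_mul_of_nonneg_left h4 (by positivity))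
    (by
      intro τ
      have hz0 : (1 + (τ 0 : ℂ) * Complex.I) ≠ 0 := by
        intro h
        have := congrArg Complex.re h
        simp at this
      have hz01 : ((1 + (τ 0 : ℂ) * Complex.I) + (1 + τ 1 * Complex.I)) ≠ 0 := by
        intro h
        have := congrArg Complex.re h
        simp at this
        try norm_num at this
      have l1 := hzl (2 * (1 + (τ 0 : ℂ) * Complex.I)) (by simp)
      have l2 := hzl ((1 + (τ 0 : ℂ) * Complex.I) + (1 + τ 1 * Complex.I)) (by simp; try norm_num)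
      have l2' := l2.inv₀ (one_div_ne_zero hz01)
      have l3 := hA3 (fun i => (1 + (τ i : ℂ) * Complex.I)) (fun i => by simp)
      have l4 := (l1.mul l2').mul l3
      have e : 1 / (2 * (1 + (τ 0 : ℂ) * Complex.I)) *
          (1 / ((1 + (τ 0 : ℂ) * Complex.I) + (1 + τ 1 * Complex.I)))⁻¹ * 1 =
          ((1 + τ 0 * Complex.I) + (1 + τ 1 * Complex.I)) / (2 * (1 + τ 0 * Complex.I)) := by
        rw [mul_one, one_div, one_div, inv_inv]
        field_simp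
      rw [e] at l4
      refine l4.congr' ?_
      filter_upwards [eventually_gt_atTop (0 : ℝ)] with L hL
      have hLC : (L : ℂ) ≠ 0 := by exact_mod_cast hL.ne'
      rw [hDeq L hL τ, Complex.ofReal_one, inv_div, div_mul_div_cancel₀ hLC, div_eq_mul_inv])
    ![w, Q] s (by intro i; fin_cases i; exacts [hw, hQ])
  have hR : ∫ τ : Fin 2 → ℝ, (∏ i, fh ((fun _ => (1 : ℝ)) i) ((![w, Q] : Fin 2 → ℝ → ℝ) i) (τ i)) *
      (((1 + (τ 0 : ℂ) * Complex.I) + (1 + τ 1 * Complex.I)) / (2 * (1 + τ 0 * Complex.I))) =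
      ((mn w Q / 2 : ℝ) : ℂ) := by
    rw [← Pool.Agent.H930R3.RZID.ID4 Pool.Agent.H375R3.RZFR.FR s w Q hw hQ]
    refine integral_congr_ae (Eventually.of_forall fun τ => ?_)
    beta_reduce
    rw [Fin.prod_univ_two]
    rfl
  rw [hR] at hlim
  have h2 := (Complex.continuous_re.tendsto _).comp hlim
  rw [Complex.ofReal_re] at h2
  refine h2.congr' ?_
  filter_upwards [eventually_gt_atTop (0 : ℝ)] with L hL
  have h3 := (hML L hL).1
  have h4 : ∑' a : Fin 2 → ℕ, ((t3c q a : ℝ) : ℂ) * ∏ i, ((![w, Q] : Fin 2 → ℝ → ℝ) i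
      (Real.log (a i) / L) : ℂ) = ((∑' a : Fin 2 → ℕ,
      t3c q a * (w (Real.log (a 0) / L) * Q (Real.log (a 1) / L)) : ℝ) : ℂ) := by
    rw [Complex.ofReal_tsum]
    refine tsum_congr fun a => ?_
    rw [Fin.prod_univ_two, Complex.ofReal_mul, Complex.ofReal_mul]
    rfl
  rw [h4] at h3
  have h5 := congrArg Complex.re h3
  rw [Complex.ofReal_re] at h5
  rw [h5]
  rfl

theorem floor_exp_le (x : ℝ) : ((⌊Real.exp x⌋₊ : ℕ) : ℝ) ≤ Real.exp x :=
  Nat.floor_le (Real.exp_pos x).le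

theorem LIM1 (F : ℝ → ℝ) (hF : TF F) (q : ℕ) (hq : Even q) (hq0 : q ≠ 0) (c : ℝ) (hc : 0 < c)
    (s θ : ℝ) (hs : 0 < s) (hθ : 0 < θ) (h : s + θ < 1) (w Q : ℝ → ℝ)
    (h1 : Wt s w) (h2 : Wt θ Q) :
    Tendsto (fun L : ℝ => TO F (c * Real.exp L) q L w Q) atTop
      (𝓝 (1 / 2 * Ft F 0 * (mn w Q / 2))) := by
  obtain ⟨B1, hB1, hw⟩ := wt_bdd h1
  obtain ⟨B2, hB2, hQ⟩ := wt_bdd h2
  -- choice of the exponent
  obtain ⟨m, hm⟩ := exists_nat_gt ((s + θ) / (1 - (s + θ)))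
  set A : ℕ := 2 * (m + 1) with hA
  have h1st : 0 < 1 - (s + θ) := by linarith
  have hAm : (s + θ) < A * (1 - (s + θ)) := by
    rw [div_lt_iff₀ h1st] at hm
    have : (m : ℝ) ≤ A := by rw [hA]; push_cast; linarith [(Nat.cast_nonneg m : (0 : ℝ) ≤ m)]
    nlinarith
  obtain ⟨C, hC, hE⟩ := EF_error F hF A ⟨m + 1, by omega⟩ (by omega)
  have hmain := main_lim q hq0 (max s θ) w Q (wt_mono (le_max_left _ _) h1)
    (wt_mono (le_max_right _ _) h2)
  have hmain2 := hmain.const_mul (1 / 2 * Ft F 0)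
  -- the error
  have herr : Tendsto (fun L : ℝ => TO F (c * Real.exp L) q L w Q -
      1 / 2 * Ft F 0 * ∑' a : Fin 2 → ℕ, t3c q a * (w (Real.log (a 0) / L) * Q (Real.log (a 1) / L)))
      atTop (𝓝 0) := by
    have hb : Tendsto (fun L : ℝ => (B1 * B2 * (C * (1 / c) ^ A)) *
        Real.exp (-((A * (1 - (s + θ)) - (s + θ)) * L))) atTop (𝓝 0) := by
      have : Tendsto (fun L : ℝ => Real.exp (-((A * (1 - (s + θ)) - (s + θ)) * L))) atTop (𝓝 0) := by
        apply Real.tendsto_exp_neg_atTop_nhds_zero.comp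
        exact tendsto_id.const_mul_atTop (by linarith)
      simpa using this.const_mul (B1 * B2 * (C * (1 / c) ^ A))
    refine squeeze_zero_norm' ?_ hb
    filter_upwards [eventually_gt_atTop (0 : ℝ)] with L hL
    have hX : 0 < c * Real.exp L := by positivity
    rw [TO_eq F hF _ hX q hq L hL s θ w Q h1 h2, ← main_part F q hq L hL s θ w Q h1 h2,
      ← Finset.sum_sub_distrib, Real.norm_eq_abs]
    set Ns : ℕ := ⌊Real.exp (s * L)⌋₊ with hNs
    set Nt : ℕ := ⌊Real.exp (θ * L)⌋₊ with hNt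
    have hNs' : (Ns : ℝ) ≤ Real.exp (s * L) := floor_exp_le _
    have hNt' : (Nt : ℝ) ≤ Real.exp (θ * L) := floor_exp_le _
    have hst : Real.exp (s * L) * Real.exp (θ * L) = Real.exp ((s + θ) * L) := by
      rw [← Real.exp_add]; ring_nf
    calc |∑ p ∈ Icc 1 Ns ×ˢ Icc 1 Nt, (cf q L w Q p * EF F (c * Real.exp L)
            (fun d => js (8 * (d : ℤ)) (p.1 * p.2)) - cf q L w Q p * D0 F (p.1 * p.2))|
        ≤ ∑ p ∈ Icc 1 Ns ×ˢ Icc 1 Nt, |(cf q L w Q p * EF F (c * Real.exp L)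
            (fun d => js (8 * (d : ℤ)) (p.1 * p.2)) - cf q L w Q p * D0 F (p.1 * p.2))| :=
          Finset.abs_sum_le_sum_abs _ _
      _ ≤ ∑ _p ∈ Icc 1 Ns ×ˢ Icc 1 Nt, (B1 * B2) * (C * (Real.exp ((s + θ) * L) /
            (c * Real.exp L)) ^ A) := by
          refine Finset.sum_le_sum fun p hp => ?_
          rw [mem_product, mem_Icc, mem_Icc] at hp
          obtain ⟨⟨hp1, hp1'⟩, ⟨hp2, hp2'⟩⟩ := hp
          rw [← mul_sub, abs_mul]
          by_cases hcp : Nat.Coprime p.1 q ∧ Nat.Coprime p.2 q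
          · have hodd : Odd (p.1 * p.2) := (odd_of_coprime hq hcp.1).mul (odd_of_coprime hq hcp.2)
            apply mul_le_mul (cf_abs q L w Q B1 B2 hB1 hw hQ hB2 p hp1 hp2) _ (abs_nonneg _)
              (by positivity)
            refine (hE (c * Real.exp L) (p.1 * p.2) hX hodd).trans ?_
            apply mul_le_mul_of_nonneg_left _ hC
            apply pow_le_pow_left₀ (by positivity)
            apply div_le_div_of_nonneg_right _ hX.le
            rw [← hst]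
            push_cast
            have e1 : (p.1 : ℝ) ≤ Real.exp (s * L) := le_trans (by exact_mod_cast hp1') hNs'
            have e2 : (p.2 : ℝ) ≤ Real.exp (θ * L) := le_trans (by exact_mod_cast hp2') hNt'
            exact mul_le_mul e1 e2 (Nat.cast_nonneg _) (Real.exp_pos _).le
          · rw [cf, if_neg hcp, abs_zero, zero_mul]
            positivity
      _ = (Ns : ℝ) * Nt * ((B1 * B2) * (C * (Real.exp ((s + θ) * L) / (c * Real.exp L)) ^ A)) := by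
          rw [Finset.sum_const, card_product, Nat.card_Icc, Nat.card_Icc, nsmul_eq_mul]
          push_cast
          simp
      _ ≤ Real.exp ((s + θ) * L) *
            ((B1 * B2) * (C * (Real.exp ((s + θ) * L) / (c * Real.exp L)) ^ A)) := by
          apply mul_le_mul_of_nonneg_right _ (by positivity)
          rw [← hst]
          exact mul_le_mul hNs' hNt' (Nat.cast_nonneg _) (Real.exp_pos _).le
      _ = _ := by
          have e1 : Real.exp ((s + θ) * L) / (c * Real.exp L) =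
              (1 / c) * Real.exp (-((1 - (s + θ)) * L)) := by
            rw [show -((1 - (s + θ)) * L) = (s + θ) * L - L by ring, Real.exp_sub]
            field_simp
          rw [e1, mul_pow, ← Real.exp_nat_mul]
          have e2 : Real.exp (-((A * (1 - (s + θ)) - (s + θ)) * L)) =
              Real.exp ((s + θ) * L) * Real.exp ((A : ℝ) * -((1 - (s + θ)) * L)) := by
            rw [← Real.exp_add]; ring_nf
          rw [e2]
          ring
  have := herr.add hmain2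
  simpa using this

end

end Pool.Agent.H884R2.RZ

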