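import Mathlib

set_option autoImplicit false

open Matrix

namespace Pool.Agent.H884R2.Cox

/-- three generators of order two without further relations -/
def M : CoxeterMatrix (Fin 3) where
  M := fun i j => if i = j then 1 else 0
  isSymm := Matrix.IsSymm.ext fun i j => by simp only [eq_comm]
  diagonal := by decide
  off_diagonal := by decide

abbrev W : Type := M.Group

def cs : CoxeterSystem M W := M.toCoxeterSystem

/-- the three rotations by the angle `π` -/
def G : Fin 3 → Matrix (Fin 3) (Fin 3) ℤ :=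
  ![!![0, 0, 1; 0, -1, 0; 1, 0, 0], !![1, -4, 4; 1, -3, 2; 1, -2, 1],
    !![1, -2, 1; 2, -3, 1; 4, -4, 1]]

theorem G_sq (i : Fin 3) : G i * G i = 1 := by
  fin_cases i <;> decide

theorem G_det (i : Fin 3) : (G i).det = 1 := by
  fin_cases i <;> decide

def gen (i : Fin 3) : GL (Fin 3) ℤ := ⟨G i, G i, G_sq i, G_sq i⟩

theorem gen_liftable : CoxeterMatrix.IsLiftable M gen := by
  intro i j
  by_cases h : i = j
  · subst h
    have : M.M i i = 1 := M.diagonal i
    change (gen i * gen i) ^ M.M i i = 1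
    rw [this, pow_one]
    ext1
    exact G_sq i
  · have : M.M i j = 0 := by simp [M, h]
    change (gen i * gen j) ^ M.M i j = 1
    rw [this, pow_zero]

def rhoZ : W →* GL (Fin 3) ℤ := cs.lift ⟨gen, gen_liftable⟩

def rho : W →* GL (Fin 3) ℝ := (Matrix.GeneralLinearGroup.map (Int.castRingHom ℝ)).comp rhoZ

theorem rhoZ_simple (i : Fin 3) : rhoZ (cs.simple i) = gen i := cs.lift_apply_simple gen_liftable i

theorem rho_apply (w : W) (i j : Fin 3) :
    (rho w : Matrix (Fin 3) (Fin 3) ℝ) i j = ((rhoZ w : Matrix (Fin 3) (Fin 3) ℤ) i j : ℝ) := rfl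

theorem rho_eq (w : W) :
    (rho w : Matrix (Fin 3) (Fin 3) ℝ) = (rhoZ w : Matrix (Fin 3) (Fin 3) ℤ).map (Int.cast) := rfl

theorem rho_simple (i : Fin 3) :
    (rho (cs.simple i) : Matrix (Fin 3) (Fin 3) ℝ) = (G i).map (Int.cast) := by
  rw [rho_eq, rhoZ_simple]; rfl

/-- the cone of positive definite binary forms `(p, q, r)`, meaning `p x² + 2 q x y + r y²` -/
def C : Set (Fin 3 → ℝ) := {x | 0 < x 0 ∧ 0 < x 2 ∧ x 1 ^ 2 < x 0 * x 2}

def C' : Set (Fin 3 → ℝ) := {x | 0 ≤ x 0 ∧ 0 ≤ x 2 ∧ x 1 ^ 2 ≤ x 0 * x 2}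

theorem isOpen_C : IsOpen C := by
  have h1 : IsOpen {x : Fin 3 → ℝ | x 1 ^ 2 < x 0 * x 2} :=
    isOpen_lt ((continuous_apply 1).pow 2) ((continuous_apply 0).mul (continuous_apply 2))
  exact (isOpen_lt continuous_const (continuous_apply 0)).inter
    ((isOpen_lt continuous_const (continuous_apply 2)).inter h1)

theorem isClosed_C' : IsClosed C' := by
  have h1 : IsClosed {x : Fin 3 → ℝ | x 1 ^ 2 ≤ x 0 * x 2} :=
    isClosed_le ((continuous_apply 1).pow 2) ((continuous_apply 0).mul (continuous_apply 2))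
  exact (isClosed_le continuous_const (continuous_apply 0)).inter
    ((isClosed_le continuous_const (continuous_apply 2)).inter h1)

theorem C_sub_C' : C ⊆ C' := fun _ hx => ⟨hx.1.le, hx.2.1.le, hx.2.2.le⟩

theorem closure_sub : closure C ⊆ C' := closure_minimal C_sub_C' isClosed_C'

theorem add_mem {x y : Fin 3 → ℝ} (hx : x ∈ C) (hy : y ∈ C) : x + y ∈ C := by
  obtain ⟨h1, h2, h3⟩ := hx
  obtain ⟨k1, k2, k3⟩ := hy
  refine ⟨add_pos h1 k1, add_pos h2 k2, ?_⟩
  simp only [Pi.add_apply]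
  have hxy : (x 1 * y 1) ^ 2 < (x 0 * y 2) * (y 0 * x 2) := by
    have := mul_lt_mul'' h3 k3 (sq_nonneg _) (sq_nonneg _)
    nlinarith
  have h5 : x 1 * y 1 * 2 < x 0 * y 2 + y 0 * x 2 := by
    have hp : 0 < x 0 * y 2 + y 0 * x 2 := by positivity
    refine lt_of_pow_lt_pow_left₀ 2 hp.le ?_
    nlinarith [sq_nonneg (x 0 * y 2 - y 0 * x 2)]
  nlinarith

theorem smul_mem {x : Fin 3 → ℝ} (hx : x ∈ C) {t : ℝ} (ht : 0 < t) : t • x ∈ C := by
  obtain ⟨h1, h2, h3⟩ := hx
  refine ⟨mul_pos ht h1, mul_pos ht h2, ?_⟩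
  simp only [Pi.smul_apply, smul_eq_mul]
  have : 0 < t ^ 2 := by positivity
  nlinarith

theorem convex_C : Convex ℝ C := by
  intro x hx y hy a b ha hb hab
  rcases ha.eq_or_lt with rfl | ha
  · have : b = 1 := by linarith
    subst this; simpa using hy
  · rcases hb.eq_or_lt with rfl | hb
    · have : a = 1 := by linarith
      subst this; simpa using hx
    · exact add_mem (smul_mem hx ha) (smul_mem hy hb)

theorem nonempty_C : C.Nonempty := ⟨![2, 1, 2], by simp [C]; norm_num⟩

theorem pointed (x : Fin 3 → ℝ) (hx : x ∈ closure C) (hx' : -x ∈ closure C) : x = 0 := by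
  obtain ⟨h1, h2, h3⟩ := closure_sub hx
  obtain ⟨k1, k2, k3⟩ := closure_sub hx'
  simp only [Pi.neg_apply] at k1 k2 k3
  have e0 : x 0 = 0 := by linarith
  have e2 : x 2 = 0 := by linarith
  have e1 : x 1 = 0 := by
    rw [e0, zero_mul] at h3
    exact pow_eq_zero_iff (two_ne_zero) |>.1 (le_antisymm h3 (sq_nonneg _))
  ext i; fin_cases i <;> assumption

/-- the three linear forms bounding the ideal triangle -/
def h (i : Fin 3) (x : Fin 3 → ℝ) : ℝ := ![x 1, x 2 - x 1, x 0 - x 1] i

def act (w : W) (x : Fin 3 → ℝ) : Fin 3 → ℝ := (rho w : Matrix (Fin 3) (Fin 3) ℝ) *ᵥ x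

theorem act_mul (w w' : W) (x : Fin 3 → ℝ) : act (w * w') x = act w (act w' x) := by
  simp [act, Matrix.mulVec_mulVec]

theorem act_one (x : Fin 3 → ℝ) : act 1 x = x := by simp [act]

theorem act_simple0 (x : Fin 3 → ℝ) : act (cs.simple 0) x = ![x 2, - x 1, x 0] := by
  unfold act
  rw [rho_simple]
  ext i
  fin_cases i <;> simp [G, Matrix.mulVec, dotProduct, Fin.sum_univ_three]

theorem act_simple1 (x : Fin 3 → ℝ) : act (cs.simple 1) x =
    ![x 0 - 4 * x 1 + 4 * x 2, x 0 - 3 * x 1 + 2 * x 2, x 0 - 2 * x 1 + x 2] := by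
  unfold act
  rw [rho_simple]
  ext i
  fin_cases i <;> simp [G, Matrix.mulVec, dotProduct, Fin.sum_univ_three] <;> ring

theorem act_simple2 (x : Fin 3 → ℝ) : act (cs.simple 2) x =
    ![x 0 - 2 * x 1 + x 2, 2 * x 0 - 3 * x 1 + x 2, 4 * x 0 - 4 * x 1 + x 2] := by
  unfold act
  rw [rho_simple]
  ext i
  fin_cases i <;> simp [G, Matrix.mulVec, dotProduct, Fin.sum_univ_three] <;> ring

def Q (x : Fin 3 → ℝ) : ℝ := x 0 * x 2 - x 1 ^ 2

theorem Q_simple (i : Fin 3) (x : Fin 3 → ℝ) : Q (act (cs.simple i) x) = Q x := by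
  fin_cases i
  · change Q (act (cs.simple 0) x) = _
    rw [act_simple0]; simp [Q]; ring
  · change Q (act (cs.simple 1) x) = _
    rw [act_simple1]; simp [Q]; ring
  · change Q (act (cs.simple 2) x) = _
    rw [act_simple2]; simp [Q]; ring

theorem C'_simple (i : Fin 3) (x : Fin 3 → ℝ) (hx : x ∈ C') : act (cs.simple i) x ∈ C' := by
  obtain ⟨h1, h2, h3⟩ := hx
  have hQ := Q_simple i x
  have key : ∀ s t : ℝ, 0 ≤ s ^ 2 * x 0 + 2 * s * t * x 1 + t ^ 2 * x 2 := by
    intro s t
    rcases h1.eq_or_lt with h0 | h0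
    · rw [← h0, zero_mul] at h3
      have : x 1 = 0 := pow_eq_zero_iff (two_ne_zero) |>.1 (le_antisymm h3 (sq_nonneg _))
      rw [this, ← h0]; nlinarith [sq_nonneg t]
    · have : 0 ≤ x 0 * (s ^ 2 * x 0 + 2 * s * t * x 1 + t ^ 2 * x 2) := by
        nlinarith [sq_nonneg (s * x 0 + t * x 1), sq_nonneg t]
      exact nonneg_of_mul_nonneg_right this h0
  have k1 := key 1 (-1)
  have k2 := key 1 (-2)
  have k3 := key 2 (-1)
  refine ⟨?_, ?_, ?_⟩
  · fin_cases i
    · change 0 ≤ act (cs.simple 0) x 0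
      rw [act_simple0]; simpa using h2
    · change 0 ≤ act (cs.simple 1) x 0
      rw [act_simple1]; simp; linarith
    · change 0 ≤ act (cs.simple 2) x 0
      rw [act_simple2]; simp; linarith
  · fin_cases i
    · change 0 ≤ act (cs.simple 0) x 2
      rw [act_simple0]; simpa using h1
    · change 0 ≤ act (cs.simple 1) x 2
      rw [act_simple1]; simp; linarith
    · change 0 ≤ act (cs.simple 2) x 2
      rw [act_simple2]; simp; linarith
  · unfold Q at hQ
    linarith

theorem mem_C_iff (x : Fin 3 → ℝ) : x ∈ C ↔ x ∈ C' ∧ 0 < Q x := by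
  constructor
  · intro hx
    exact ⟨C_sub_C' hx, by have := hx.2.2; unfold Q; linarith⟩
  · rintro ⟨⟨h1, h2, h3⟩, hQ⟩
    unfold Q at hQ
    have : 0 < x 0 * x 2 := by nlinarith [sq_nonneg (x 1)]
    refine ⟨?_, ?_, by linarith⟩
    · rcases h1.eq_or_lt with h0 | h0
      · rw [← h0, zero_mul] at this; exact absurd this (lt_irrefl _)
      · exact h0
    · rcases h2.eq_or_lt with h0 | h0
      · rw [← h0, mul_zero] at this; exact absurd this (lt_irrefl _)
      · exact h0

theorem C'_act (w : W) : ∀ x ∈ C', act w x ∈ C' := by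
  induction w using cs.simple_induction_left with
  | one => intro x hx; rwa [act_one]
  | mul_simple_left w i ih =>
    intro x hx
    rw [act_mul]
    exact C'_simple i _ (ih x hx)

theorem Q_act (w : W) (x : Fin 3 → ℝ) : Q (act w x) = Q x := by
  induction w using cs.simple_induction_left with
  | one => rw [act_one]
  | mul_simple_left w i ih =>
    rw [act_mul, Q_simple, ih]

theorem C_act (w : W) (x : Fin 3 → ℝ) (hx : x ∈ C) : act w x ∈ C := by
  rw [mem_C_iff] at hx ⊢
  exact ⟨C'_act w x hx.1, by rw [Q_act]; exact hx.2⟩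

theorem C_iff (w : W) (x : Fin 3 → ℝ) : x ∈ C ↔ act w x ∈ C := by
  refine ⟨C_act w x, fun hx => ?_⟩
  have := C_act w⁻¹ _ hx
  rwa [← act_mul, inv_mul_cancel, act_one] at this

theorem h_simple (i : Fin 3) (x : Fin 3 → ℝ) : h i (act (cs.simple i) x) = - h i x := by
  fin_cases i
  · change h 0 (act (cs.simple 0) x) = - h 0 x
    rw [act_simple0]; simp [h]
  · change h 1 (act (cs.simple 1) x) = - h 1 x
    rw [act_simple1]; simp [h]; ring
  · change h 2 (act (cs.simple 2) x) = - h 2 x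
    rw [act_simple2]; simp [h]; ring

theorem h_sep (x : Fin 3 → ℝ) (hx : x ∈ C) (i j : Fin 3) (hij : i ≠ j) (hi : h i x < 0) :
    0 < h j x := by
  obtain ⟨h1, h2, h3⟩ := hx
  fin_cases i <;> fin_cases j <;> simp [h] at hij hi ⊢
  · linarith
  · linarith
  · linarith
  · by_contra hc
    push Not at hc
    nlinarith
  · linarith
  · by_contra hc
    push Not at hc
    nlinarith

/-- every element is represented by a word without repetition -/
theorem exists_alt (w : W) : ∃ ω : List (Fin 3), ω.IsChain (· ≠ ·) ∧ cs.wordProd ω = w := by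
  induction w using cs.simple_induction_left with
  | one => exact ⟨[], by simp, by simp⟩
  | mul_simple_left w i ih =>
    obtain ⟨ω, h1, rfl⟩ := ih
    cases ω with
    | nil => exact ⟨[i], by simp, by simp⟩
    | cons j ω =>
      by_cases hij : i = j
      · subst hij
        refine ⟨ω, h1.of_cons, ?_⟩
        rw [CoxeterSystem.wordProd_cons]; simp
      · refine ⟨i :: j :: ω, ?_, by rw [CoxeterSystem.wordProd_cons _ i]⟩
        exact List.isChain_cons_cons.2 ⟨hij, h1⟩

theorem ping_pong (x : Fin 3 → ℝ) (hx : x ∈ C) (hx' : ∀ i, 0 < h i x) (i : Fin 3)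
    (ω : List (Fin 3)) (hω : (i :: ω).IsChain (· ≠ ·)) : h i (act (cs.wordProd (i :: ω)) x) < 0 := by
  induction ω generalizing i with
  | nil =>
    rw [CoxeterSystem.wordProd_singleton, h_simple]
    linarith [hx' i]
  | cons j ω ih =>
    rw [CoxeterSystem.wordProd_cons, act_mul, h_simple]
    have h1 := ih j hω.of_cons
    have h2 := h_sep _ (C_act _ x hx) j i (List.isChain_cons_cons.1 hω).1.symm h1
    linarith

theorem act_inj (w : W) (hw : ∀ x, act w x = x) : w = 1 := by
  obtain ⟨ω, h1, rfl⟩ := exists_alt w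
  cases ω with
  | nil => simp
  | cons i ω =>
    exfalso
    have hC : (![2, 1, 2] : Fin 3 → ℝ) ∈ C := by simp [C]; norm_num
    have hh : ∀ i, 0 < h i (![2, 1, 2] : Fin 3 → ℝ) := by
      intro i; fin_cases i <;> simp [h]
    have := ping_pong _ hC hh i ω h1
    rw [hw] at this
    exact absurd this (not_lt.2 (hh i).le)

theorem rho_inj : Function.Injective rho := by
  rw [injective_iff_map_eq_one]
  intro w hw
  apply act_inj
  intro x
  unfold act
  rw [hw]
  simp

theorem rho_det (w : W) : (rho w : Matrix (Fin 3) (Fin 3) ℝ).det = 1 := by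
  induction w using cs.simple_induction_left with
  | one => simp
  | mul_simple_left w i ih =>
    rw [map_mul, Units.val_mul, Matrix.det_mul, ih, mul_one, rho_simple]
    have := G_det i
    have h2 : ((G i).map (Int.cast : ℤ → ℝ)).det = ((G i).det : ℝ) := by
      have := (RingHom.map_det (Int.castRingHom ℝ) (G i))
      simpa using this.symm
    rw [h2, this]; simp

theorem discrete (w : W) : ∃ U : Set (Matrix (Fin 3) (Fin 3) ℝ), IsOpen U ∧
      (rho w : Matrix (Fin 3) (Fin 3) ℝ) ∈ U ∧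
      ∀ w' : W, (rho w' : Matrix (Fin 3) (Fin 3) ℝ) ∈ U → w' = w := by
  refine ⟨⋂ i, ⋂ j, {m | |m i j - (rho w : Matrix (Fin 3) (Fin 3) ℝ) i j| < 1}, ?_, ?_, ?_⟩
  · refine isOpen_iInter_of_finite fun i => isOpen_iInter_of_finite fun j => ?_
    refine isOpen_lt ?_ continuous_const
    exact ((continuous_apply_apply i j).sub continuous_const).abs
  · simp
  · intro w' hw'
    apply rho_inj
    apply Units.ext
    ext i j
    simp only [Set.mem_iInter, Set.mem_ofPred_eq] at hw'
    have := hw' i j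
    rw [rho_apply, rho_apply] at this ⊢
    have h3 : |(rhoZ w' : Matrix (Fin 3) (Fin 3) ℤ) i j - (rhoZ w : Matrix (Fin 3) (Fin 3) ℤ) i j| < 1 := by
      exact_mod_cast this
    have h4 := Int.abs_lt_one_iff.1 h3
    have h5 : (rhoZ w' : Matrix (Fin 3) (Fin 3) ℤ) i j = (rhoZ w : Matrix (Fin 3) (Fin 3) ℤ) i j := by
      linarith
    rw [h5]

theorem not_reflection (α v : Fin 3 → ℝ) (h1 : α ⬝ᵥ v = 2)
    (h2 : (rho (cs.simple 0) : Matrix (Fin 3) (Fin 3) ℝ) = 1 - Matrix.vecMulVec v α) : False := by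
  have h3 := congrArg Matrix.trace h2
  rw [rho_simple, Matrix.trace_sub, Matrix.trace_one] at h3
  have h4 : (Matrix.vecMulVec v α).trace = α ⬝ᵥ v := by
    simp [Matrix.trace, Matrix.vecMulVec, dotProduct, Matrix.diag]
    exact Finset.sum_congr rfl fun i _ => mul_comm _ _
  rw [h4, h1] at h3
  simp [Matrix.trace, Fin.sum_univ_three, G] at h3
  norm_num at h3

end Pool.Agent.H884R2.Cox
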