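import Mathlib
import Pool.Agent.H884R2.Cox

set_option autoImplicit false

open Matrix

namespace Pool.Agent.H884R2.Cox

def sig (x : Fin 3 → ℝ) : ℝ := x 0 + x 2 - x 1

theorem abs_le_sig {u : Fin 3 → ℝ} (hu : u ∈ C') (i : Fin 3) : |u i| ≤ 2 * sig u := by
  obtain ⟨h1, h2, h3⟩ := hu
  have h4 : |u 1| ≤ (u 0 + u 2) / 2 := by
    apply abs_le_of_sq_le_sq _ (by linarith)
    nlinarith [sq_nonneg (u 0 - u 2)]
  have h5 := abs_le.1 h4
  unfold sig
  fin_cases i
  · change |u 0| ≤ _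
    rw [abs_of_nonneg h1]; linarith
  · change |u 1| ≤ _
    rw [abs_le]; constructor <;> linarith
  · change |u 2| ≤ _
    rw [abs_of_nonneg h2]; linarith

theorem sig_nonneg {u : Fin 3 → ℝ} (hu : u ∈ C') : 0 ≤ sig u := by
  have := abs_le_sig hu 0
  have := abs_nonneg (u 0)
  linarith

theorem exists_delta {x : Fin 3 → ℝ} (hx : x ∈ C) (v : Fin 3 → ℝ) :
    ∃ δ : ℝ, 0 < δ ∧ ∀ t, 0 ≤ t → t ≤ δ → x - t • v ∈ C := by
  have hc : Continuous fun t : ℝ => x - t • v := by fun_prop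
  have h0 : (0 : ℝ) ∈ (fun t : ℝ => x - t • v) ⁻¹' C := by simpa using hx
  have ho := isOpen_C.preimage hc
  obtain ⟨ε, hε, hb⟩ := Metric.isOpen_iff.1 ho 0 h0
  refine ⟨ε / 2, by positivity, fun t ht ht' => ?_⟩
  apply hb
  rw [Metric.mem_ball, Real.dist_eq, sub_zero, abs_of_nonneg ht]
  linarith

theorem act_sub_smul (w : W) (x v : Fin 3 → ℝ) (t : ℝ) :
    act w (x - t • v) = act w x - t • act w v := by
  simp [act, Matrix.mulVec_sub, Matrix.mulVec_smul]

theorem sig_sub_smul (x v : Fin 3 → ℝ) (t : ℝ) : sig (x - t • v) = sig x - t * sig v := by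
  simp [sig]; ring

theorem finite_sig {x : Fin 3 → ℝ} (hx : x ∈ C) (K : ℝ) : {w : W | sig (act w x) ≤ K}.Finite := by
  obtain ⟨δ0, hδ0, h0⟩ := exists_delta hx ![1, 0, 0]
  obtain ⟨δ1, hδ1, h1⟩ := exists_delta hx ![1, 1, 1]
  obtain ⟨δ2, hδ2, h2⟩ := exists_delta hx ![0, 0, 1]
  obtain ⟨δ, hδ, hd0, hd1, hd2⟩ : ∃ δ : ℝ, 0 < δ ∧ δ ≤ δ0 ∧ δ ≤ δ1 ∧ δ ≤ δ2 :=
    ⟨min δ0 (min δ1 δ2), by positivity, min_le_left _ _,
      (min_le_right _ _).trans (min_le_left _ _), (min_le_right _ _).trans (min_le_right _ _)⟩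
  have hv0 : (![1, 0, 0] : Fin 3 → ℝ) ∈ C' := by simp [C']
  have hv1 : (![1, 1, 1] : Fin 3 → ℝ) ∈ C' := by simp [C']
  have hv2 : (![0, 0, 1] : Fin 3 → ℝ) ∈ C' := by simp [C']
  have key : ∀ v ∈ C', x - δ • v ∈ C → ∀ w : W, sig (act w x) ≤ K → ∀ i,
      |act w v i| ≤ 2 * (K / δ) := by
    intro v hv hxv w hw i
    have h3 := sig_nonneg (C'_act w _ (C_sub_C' hxv))
    rw [act_sub_smul, sig_sub_smul] at h3
    have h4 : sig (act w v) ≤ K / δ := by
      rw [le_div_iff₀ hδ]; linarith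
    exact (abs_le_sig (C'_act w v hv) i).trans (by linarith)
  have k0 := key _ hv0 (h0 δ hδ.le hd0)
  have k1 := key _ hv1 (h1 δ hδ.le hd1)
  have k2 := key _ hv2 (h2 δ hδ.le hd2)
  set B : ℤ := ⌈6 * (K / δ)⌉ with hB
  let f : W → (Fin 3 → Fin 3 → ℤ) := fun w i j => (rhoZ w : Matrix (Fin 3) (Fin 3) ℤ) i j
  have hf : Function.Injective f := by
    intro w w' hww
    apply rho_inj
    apply Units.ext
    ext i j
    rw [rho_apply, rho_apply]
    exact congrArg _ (congrFun (congrFun hww i) j)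
  refine Set.Finite.subset ((Set.finite_Icc (fun _ _ => -B : Fin 3 → Fin 3 → ℤ)
    (fun _ _ => B)).preimage hf.injOn) ?_
  intro w hw
  have c0 : ∀ i, act w ![1, 0, 0] i = (f w i 0 : ℝ) := by
    intro i
    simp [act, Matrix.mulVec, dotProduct, Fin.sum_univ_three, rho_apply, f]
  have c2 : ∀ i, act w ![0, 0, 1] i = (f w i 2 : ℝ) := by
    intro i
    simp [act, Matrix.mulVec, dotProduct, Fin.sum_univ_three, rho_apply, f]
  have c1 : ∀ i, act w ![1, 1, 1] i = (f w i 0 : ℝ) + (f w i 1 : ℝ) + (f w i 2 : ℝ) := by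
    intro i
    simp [act, Matrix.mulVec, dotProduct, Fin.sum_univ_three, rho_apply, f]
  have hb : ∀ i j, |(f w i j : ℝ)| ≤ 6 * (K / δ) := by
    intro i j
    have a0 := k0 w hw i
    have a1 := k1 w hw i
    have a2 := k2 w hw i
    rw [c0, abs_le] at a0
    rw [c1, abs_le] at a1
    rw [c2, abs_le] at a2
    rw [abs_le]
    fin_cases j
    · change _ ≤ (f w i 0 : ℝ) ∧ (f w i 0 : ℝ) ≤ _
      constructor <;> linarith
    · change _ ≤ (f w i 1 : ℝ) ∧ (f w i 1 : ℝ) ≤ _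
      constructor <;> linarith
    · change _ ≤ (f w i 2 : ℝ) ∧ (f w i 2 : ℝ) ≤ _
      constructor <;> linarith
  rw [Set.mem_preimage, Set.mem_Icc]
  constructor
  · intro i j
    have h5 := (abs_le.1 (hb i j)).1
    have h6 := Int.le_ceil (6 * (K / δ))
    have : -(B : ℝ) ≤ (f w i j : ℝ) := by linarith
    exact_mod_cast this
  · intro i j
    have h5 := (abs_le.1 (hb i j)).2
    have h6 := Int.le_ceil (6 * (K / δ))
    have : (f w i j : ℝ) ≤ (B : ℝ) := by linarith
    exact_mod_cast this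

theorem sig_simple (i : Fin 3) (x : Fin 3 → ℝ) : sig (act (cs.simple i) x) = sig x + 2 * h i x := by
  fin_cases i
  · change sig (act (cs.simple 0) x) = sig x + 2 * h 0 x
    rw [act_simple0]; simp [h, sig]; ring
  · change sig (act (cs.simple 1) x) = sig x + 2 * h 1 x
    rw [act_simple1]; simp [h, sig]; ring
  · change sig (act (cs.simple 2) x) = sig x + 2 * h 2 x
    rw [act_simple2]; simp [h, sig]; ring

theorem exists_reduced {x : Fin 3 → ℝ} (hx : x ∈ C) : ∃ w : W, ∀ i, 0 ≤ h i (act w x) := by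
  obtain ⟨w, hw, hmin⟩ := Set.exists_min_image {w : W | sig (act w x) ≤ sig x}
    (fun w => sig (act w x)) (finite_sig hx _) ⟨1, by simp [act_one]⟩
  refine ⟨w, fun i => ?_⟩
  by_contra hc
  push Not at hc
  have h1 : sig (act (cs.simple i * w) x) = sig (act w x) + 2 * h i (act w x) := by
    rw [act_mul, sig_simple]
  have h2 : sig (act (cs.simple i * w) x) ≤ sig x := by
    rw [h1]
    have : sig (act w x) ≤ sig x := hw
    linarith
  have h3 := hmin _ h2
  rw [h1] at h3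
  linarith

/-- a strip above a horocycle, which contains a fundamental domain -/
def F : Set (Fin 3 → ℝ) := {x | x ∈ C ∧ -x 2 ≤ x 1 ∧ x 1 ≤ 2 * x 2 ∧ 3 * x 2 ^ 2 ≤ 4 * Q x}

theorem exists_mem_F {x : Fin 3 → ℝ} (hx : x ∈ C) : ∃ w : W, act w x ∈ F := by
  obtain ⟨w, hw⟩ := exists_reduced hx
  set y := act w x with hy
  have hyC : y ∈ C := C_act w x hx
  have a0 : 0 ≤ y 1 := by simpa [h] using hw 0
  have a1 : 0 ≤ y 2 - y 1 := by simpa [h] using hw 1
  have a2 : 0 ≤ y 0 - y 1 := by simpa [h] using hw 2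
  obtain ⟨b0, b1, b2⟩ := hyC
  -- the three values
  by_cases c1 : y 2 ≤ y 0 ∧ 2 * y 1 ≤ y 0
  · refine ⟨w, ⟨b0, b1, b2⟩, by linarith, by linarith, ?_⟩
    rw [← hy]
    unfold Q
    rcases le_total (2 * y 1) (y 2) with hc | hc
    · nlinarith [c1.1, c1.2]
    · nlinarith [c1.1, c1.2]
  · by_cases c2 : y 0 ≤ y 2 ∧ 2 * y 1 ≤ y 2
    · refine ⟨cs.simple 0 * w, ?_⟩
      rw [act_mul, ← hy]
      refine ⟨C_act _ _ ⟨b0, b1, b2⟩, ?_, ?_, ?_⟩
      · rw [act_simple0]; simp; linarith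
      · rw [act_simple0]; simp; linarith
      · rw [Q_simple, act_simple0]
        simp [Q]
        rcases le_total (2 * y 1) (y 0) with hc | hc
        · nlinarith [c2.1, c2.2]
        · nlinarith [c2.1, c2.2]
    · have c3 : y 2 ≤ 2 * y 1 ∧ y 0 ≤ 2 * y 1 := by
        by_contra hc
        rw [not_and_or] at hc
        rcases le_total (y 0) (y 2) with h0 | h0
        · rw [not_and_or] at c2
          rcases c2 with c2 | c2
          · exact c2 h0
          · push Not at c2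
            rcases hc with hc | hc
            · push Not at hc; linarith
            · push Not at hc; linarith
        · rw [not_and_or] at c1
          rcases c1 with c1 | c1
          · exact c1 h0
          · push Not at c1
            rcases hc with hc | hc
            · push Not at hc; linarith
            · push Not at hc; linarith
      refine ⟨cs.simple 1 * w, ?_⟩
      rw [act_mul, ← hy]
      refine ⟨C_act _ _ ⟨b0, b1, b2⟩, ?_, ?_, ?_⟩
      · rw [act_simple1]; simp; linarith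
      · rw [act_simple1]; simp; linarith
      · rw [Q_simple, act_simple1]
        simp [Q]
        have d0 : 0 ≤ 2 * y 1 - y 2 := by linarith [c3.1]
        have d1 : 0 ≤ 2 * y 1 - y 0 := by linarith [c3.2]
        rcases le_total (y 0) (y 2) with h0 | h0
        · nlinarith [mul_nonneg a1 a2, mul_nonneg d0 a2, mul_nonneg d0 a1, mul_nonneg a2 a2, mul_nonneg a1 a1]
        · nlinarith [mul_nonneg a1 a2, mul_nonneg d1 a2, mul_nonneg d1 a1, mul_nonneg a2 a2, mul_nonneg a1 a1]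

theorem cover : C ⊆ ⋃ w : W, (fun x => (rho w : Matrix (Fin 3) (Fin 3) ℝ) *ᵥ x) '' F := by
  intro x hx
  obtain ⟨w, hw⟩ := exists_mem_F hx
  rw [Set.mem_iUnion]
  refine ⟨w⁻¹, act w x, hw, ?_⟩
  change act w⁻¹ (act w x) = x
  rw [← act_mul, inv_mul_cancel, act_one]

end Pool.Agent.H884R2.Cox
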