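import Mathlib
import Pool.Agent.H884R2.Cox2

set_option autoImplicit false

open Matrix

namespace Pool.Agent.H884R2.Cox

/-- the Hilbert distance of the cone -/
noncomputable def hd (x y : Fin 3 → ℝ) : ENNReal := ENNReal.ofReal ((1 / 2 : ℝ) *
              Real.log (sInf {t : ℝ | t • y - x ∈ closure C} *
                sInf {t : ℝ | t • x - y ∈ closure C}))

theorem sInf_bounds {x y : Fin 3 → ℝ} (hx : x ∈ C) (hy : y ∈ C) {t0 : ℝ}
    (ht : t0 • y - x ∈ C) : 0 ≤ sInf {t : ℝ | t • y - x ∈ closure C} ∧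
      sInf {t : ℝ | t • y - x ∈ closure C} ≤ t0 := by
  have hpos : ∀ t ∈ {t : ℝ | t • y - x ∈ closure C}, 0 ≤ t := by
    intro t ht
    have h1 := (closure_sub ht).1
    simp only [Pi.sub_apply, Pi.smul_apply, smul_eq_mul] at h1
    have h2 : 0 < t * y 0 := by linarith [hx.1]
    exact (pos_of_mul_pos_left h2 hy.1.le).le
  exact ⟨Real.sInf_nonneg hpos, csInf_le ⟨0, fun t ht => hpos t ht⟩ (subset_closure ht)⟩

theorem hd_le {x y : Fin 3 → ℝ} (hx : x ∈ C) (hy : y ∈ C) {s ε : ℝ} (hs : 0 < s) (hε : 0 ≤ ε)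
    (h1 : (s * (1 + ε)) • y - x ∈ C) (h2 : (s⁻¹ * (1 + ε)) • x - y ∈ C) :
    hd x y ≤ ENNReal.ofReal ε := by
  unfold hd
  apply ENNReal.ofReal_le_ofReal
  obtain ⟨a1, a2⟩ := sInf_bounds hx hy h1
  obtain ⟨b1, b2⟩ := sInf_bounds hy hx h2
  set A := sInf {t : ℝ | t • y - x ∈ closure C}
  set B := sInf {t : ℝ | t • x - y ∈ closure C}
  have h3 : A * B ≤ (1 + ε) ^ 2 := by
    calc A * B ≤ (s * (1 + ε)) * (s⁻¹ * (1 + ε)) := mul_le_mul a2 b2 b1 (by positivity)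
      _ = (1 + ε) ^ 2 := by field_simp
  have h4 : Real.log (A * B) ≤ 2 * ε := by
    rcases (mul_nonneg a1 b1).eq_or_lt with h5 | h5
    · rw [← h5, Real.log_zero]; positivity
    · calc Real.log (A * B) ≤ Real.log ((1 + ε) ^ 2) := Real.log_le_log h5 h3
        _ = 2 * Real.log (1 + ε) := by rw [Real.log_pow]; norm_num
        _ ≤ 2 * ε := by
          have := Real.log_le_sub_one_of_pos (show 0 < 1 + ε by positivity)
          linarith
  linarith

theorem step_mem {x2 y2 a b u v η hh Y : ℝ} (hx2 : 0 < x2) (hη : 0 < η) (hη1 : η ≤ 1 / 2)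
    (hY : 0 < Y) (hu : u ≤ Y * (1 + η)) (hv : Y ≤ v) (hab : |a - b| ≤ hh)
    (hh2 : hh ^ 2 < η ^ 2 * Y) (x y : Fin 3 → ℝ) (hx : x = ![x2 * (u + a ^ 2), x2 * a, x2])
    (hy : y = ![y2 * (v + b ^ 2), y2 * b, y2]) (hy2 : 0 < y2) :
    ((x2 / y2) * (1 + 2 * η)) • y - x ∈ C := by
  have h1 : (a - b) ^ 2 < η ^ 2 * Y := by
    have : (a - b) ^ 2 ≤ hh ^ 2 := by
      rw [← sq_abs (a - b)]
      exact pow_le_pow_left₀ (abs_nonneg _) hab 2
    linarith
  have e0 : (((x2 / y2) * (1 + 2 * η)) • y - x) 0 =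
      x2 * ((1 + 2 * η) * (v + b ^ 2) - (u + a ^ 2)) := by
    rw [hx, hy]; simp; field_simp
  have e1 : (((x2 / y2) * (1 + 2 * η)) • y - x) 1 = x2 * ((1 + 2 * η) * b - a) := by
    rw [hx, hy]; simp; field_simp
  have e2 : (((x2 / y2) * (1 + 2 * η)) • y - x) 2 = x2 * (2 * η) := by
    rw [hx, hy]; simp; field_simp; ring
  have hQ : ((1 + 2 * η) * b - a) ^ 2 <
      ((1 + 2 * η) * (v + b ^ 2) - (u + a ^ 2)) * (2 * η) := by
    have h2 : 0 ≤ (1 + 2 * η) * (v - Y) * (2 * η) := by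
      have : 0 ≤ v - Y := by linarith
      positivity
    have h3 : 0 ≤ (Y * (1 + η) - u) * (2 * η) := by
      have : 0 ≤ Y * (1 + η) - u := by linarith
      positivity
    have h4 : (1 + 2 * η) * (a - b) ^ 2 < 2 * (η ^ 2 * Y) := by
      have : (1 + 2 * η) * (a - b) ^ 2 ≤ 2 * (a - b) ^ 2 := by
        apply mul_le_mul_of_nonneg_right _ (sq_nonneg _); linarith
      linarith
    nlinarith
  have hz2 : 0 < x2 * (2 * η) := by positivity
  have hz0 : 0 < (1 + 2 * η) * (v + b ^ 2) - (u + a ^ 2) := by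
    have : 0 < ((1 + 2 * η) * (v + b ^ 2) - (u + a ^ 2)) * (2 * η) :=
      lt_of_le_of_lt (sq_nonneg _) hQ
    exact pos_of_mul_pos_left this (by positivity)
  refine ⟨?_, ?_, ?_⟩
  · rw [e0]; positivity
  · rw [e2]; exact hz2
  · rw [e0, e1, e2]
    have : 0 < x2 ^ 2 := by positivity
    nlinarith

noncomputable def eta (N k : ℕ) : ℝ := 1 / (N * 2 ^ k)

noncomputable def lev (N k j : ℕ) : ℝ := 3 / 4 * 4 ^ k * (1 + j * eta N k)

def cell (N k i j : ℕ) : Set (Fin 3 → ℝ) := {x | x ∈ C ∧ -1 + i / (2 * N) ≤ x 1 / x 2 ∧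
  x 1 / x 2 ≤ -1 + (i + 1) / (2 * N) ∧ lev N k j ≤ Q x / x 2 ^ 2 ∧
  Q x / x 2 ^ 2 ≤ lev N k j + 3 / 4 * 4 ^ k * eta N k}

theorem cell_step {N k i j : ℕ} (hN : 2 ≤ N) {x y : Fin 3 → ℝ} (hx : x ∈ cell N k i j)
    (hy : y ∈ cell N k i j) : ((x 2 / y 2) * (1 + 2 * eta N k)) • y - x ∈ C := by
  obtain ⟨hxC, x1, x2, x3, x4⟩ := hx
  obtain ⟨hyC, y1, y2, y3, y4⟩ := hy
  have hNr : (2 : ℝ) ≤ N := by exact_mod_cast hN
  have hN0 : (0 : ℝ) < N := by linarith
  have hη : 0 < eta N k := by unfold eta; positivity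
  have hη1 : eta N k ≤ 1 / 2 := by
    unfold eta
    have : (1 : ℝ) ≤ 2 ^ k := one_le_pow₀ (by norm_num)
    apply one_div_le_one_div_of_le (by norm_num)
    nlinarith
  have hY : 0 < lev N k j := by unfold lev; positivity
  have hlev : 3 / 4 * 4 ^ k ≤ lev N k j := by
    unfold lev
    have : 0 ≤ (j : ℝ) * eta N k := by positivity
    have h4 : (0 : ℝ) < 3 / 4 * 4 ^ k := by positivity
    nlinarith
  have hpx := hxC.2.1
  have hpy := hyC.2.1
  refine step_mem (a := x 1 / x 2) (b := y 1 / y 2) (u := Q x / x 2 ^ 2) (v := Q y / y 2 ^ 2)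
    (η := eta N k) (hh := 1 / (2 * N)) (Y := lev N k j) hpx hη hη1 hY ?_ y3 ?_ ?_ x y ?_ ?_ hpy
  · calc Q x / x 2 ^ 2 ≤ lev N k j + 3 / 4 * 4 ^ k * eta N k := x4
      _ ≤ lev N k j * (1 + eta N k) := by nlinarith
  · rw [abs_le]
    have : (i + 1 : ℝ) / (2 * N) = i / (2 * N) + 1 / (2 * N) := by ring
    rw [this] at x2 y2
    constructor <;> linarith
  · have h5 : eta N k ^ 2 * lev N k j ≥ eta N k ^ 2 * (3 / 4 * 4 ^ k) := by
      apply mul_le_mul_of_nonneg_left hlev (by positivity)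
    have h6 : eta N k ^ 2 * (3 / 4 * 4 ^ k) = 3 / (4 * N ^ 2) := by
      unfold eta
      have : (4 : ℝ) ^ k = (2 ^ k) ^ 2 := by rw [← pow_mul, mul_comm, pow_mul]; norm_num
      rw [this]
      field_simp
    have h7 : (1 / (2 * (N : ℝ))) ^ 2 < 3 / (4 * N ^ 2) := by
      have : (1 / (2 * (N : ℝ))) ^ 2 = 1 / (4 * N ^ 2) := by field_simp; norm_num
      rw [this]
      apply div_lt_div_of_pos_right (by norm_num) (by positivity)
    linarith
  · ext m
    fin_cases m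
    · simp [Q]; field_simp; ring
    · simp; field_simp
    · simp
  · ext m
    fin_cases m
    · simp [Q]; field_simp; ring
    · simp; field_simp
    · simp

theorem cell_diam {N k i j : ℕ} (hN : 2 ≤ N) :
    (⨆ x ∈ cell N k i j, ⨆ y ∈ cell N k i j, hd x y) ≤ ENNReal.ofReal (2 * eta N k) := by
  have hη : 0 < eta N k := by
    have hN0 : (0 : ℝ) < N := by exact_mod_cast (by omega : 0 < N)
    unfold eta; positivity
  refine iSup₂_le fun x hx => iSup₂_le fun y hy => ?_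
  have hpx := hx.1.2.1
  have hpy := hy.1.2.1
  refine hd_le hx.1 hy.1 (s := x 2 / y 2) (div_pos hpx hpy) (by positivity) (cell_step hN hx hy) ?_
  rw [inv_div]
  exact cell_step hN hy hx

theorem F_sub_cells {N : ℕ} (hN : 2 ≤ N) {x : Fin 3 → ℝ} (hx : x ∈ F) :
    ∃ k i j, i < 7 * N ∧ j < 3 * N * 2 ^ k ∧ x ∈ cell N k i j := by
  obtain ⟨hxC, h1, h2, h3⟩ := hx
  have hp := hxC.2.1
  have hNr : (2 : ℝ) ≤ N := by exact_mod_cast hN
  have hN0 : (0 : ℝ) < N := by linarith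
  set a := x 1 / x 2 with ha
  set u := Q x / x 2 ^ 2 with hu
  have ha1 : -1 ≤ a := by rw [ha, le_div_iff₀ hp]; linarith
  have ha2 : a ≤ 2 := by rw [ha, div_le_iff₀ hp]; linarith
  have hu1 : 1 ≤ 4 / 3 * u := by
    have : 3 / 4 ≤ u := by rw [hu, le_div_iff₀ (by positivity)]; linarith
    linarith
  obtain ⟨k, hk1, hk2⟩ := exists_nat_pow_near hu1 (show (1 : ℝ) < 4 by norm_num)
  have hη : 0 < eta N k := by unfold eta; positivity
  have h4k : (0 : ℝ) < 4 ^ k := by positivity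
  set c := (4 / 3 * u / 4 ^ k - 1) / eta N k with hc
  have hc0 : 0 ≤ c := by
    rw [hc]
    apply div_nonneg _ hη.le
    rw [sub_nonneg, le_div_iff₀ h4k]; linarith
  have hc1 : c < 3 * N * 2 ^ k := by
    rw [hc, div_lt_iff₀ hη]
    have : 3 * (N : ℝ) * 2 ^ k * eta N k = 3 := by unfold eta; field_simp
    rw [this]
    have : 4 / 3 * u / 4 ^ k < 4 := by
      rw [div_lt_iff₀ h4k]; rw [pow_succ] at hk2; linarith
    linarith
  have hd0 : 0 ≤ (a + 1) * (2 * N) := by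
    apply mul_nonneg (by linarith) (by positivity)
  refine ⟨k, ⌊(a + 1) * (2 * N)⌋₊, ⌊c⌋₊, ?_, ?_, hxC, ?_, ?_, ?_, ?_⟩
  · rw [Nat.floor_lt hd0]
    push_cast
    nlinarith
  · rw [Nat.floor_lt hc0]
    push_cast
    exact hc1
  · have := Nat.floor_le hd0
    rw [← ha]
    have h5 : (⌊(a + 1) * (2 * N)⌋₊ : ℝ) / (2 * N) ≤ a + 1 := by
      rw [div_le_iff₀ (by positivity)]; exact this
    linarith
  · have := (Nat.lt_floor_add_one ((a + 1) * (2 * N))).le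
    rw [← ha]
    have h5 : a + 1 ≤ ((⌊(a + 1) * (2 * N)⌋₊ : ℝ) + 1) / (2 * N) := by
      rw [le_div_iff₀ (by positivity)]; exact this
    linarith
  · have h5 := Nat.floor_le hc0
    rw [← hu]
    have h6 : (⌊c⌋₊ : ℝ) * eta N k ≤ 4 / 3 * u / 4 ^ k - 1 := by
      rw [hc, le_div_iff₀ hη] at h5; exact h5
    unfold lev
    have h7 : (1 + (⌊c⌋₊ : ℝ) * eta N k) * 4 ^ k ≤ 4 / 3 * u := by
      rw [← le_div_iff₀ h4k]; linarith
    linarith
  · have h5 := (Nat.lt_floor_add_one c).le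
    rw [← hu]
    have h6 : 4 / 3 * u / 4 ^ k - 1 ≤ ((⌊c⌋₊ : ℝ) + 1) * eta N k := by
      rw [hc, div_le_iff₀ hη] at h5; exact h5
    unfold lev
    have h7 : 4 / 3 * u ≤ (1 + ((⌊c⌋₊ : ℝ) + 1) * eta N k) * 4 ^ k := by
      rw [← div_le_iff₀ h4k]; linarith
    linarith

/-- the cells used, indexed by all triples -/
def cellI (N : ℕ) (p : ℕ × ℕ × ℕ) : Set (Fin 3 → ℝ) :=
  if p.2.1 < 7 * N ∧ p.2.2 < 3 * N * 2 ^ p.1 then cell N p.1 p.2.1 p.2.2 else ∅

noncomputable def dm (U : Set (Fin 3 → ℝ)) : ENNReal := ⨆ x ∈ U, ⨆ y ∈ U, hd x y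

theorem cellI_diam {N : ℕ} (hN : 2 ≤ N) (p : ℕ × ℕ × ℕ) : dm (cellI N p) ≤
    ENNReal.ofReal (2 * eta N p.1) := by
  unfold cellI
  split_ifs with hp
  · exact cell_diam hN
  · simp [dm]

theorem cellI_term {N : ℕ} (hN : 2 ≤ N) (k : ℕ) (q : ℕ × ℕ) :
    (⨆ (_ : (cellI N (k, q)).Nonempty), dm (cellI N (k, q)) ^ (3 - 1)) ≤
    if q ∈ Finset.range (7 * N) ×ˢ Finset.range (3 * N * 2 ^ k) then
      ENNReal.ofReal (2 * eta N k) ^ 2 else 0 := by
  refine iSup_le fun hne => ?_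
  have hp : q.1 < 7 * N ∧ q.2 < 3 * N * 2 ^ k := by
    by_contra hc
    unfold cellI at hne
    rw [if_neg hc] at hne
    exact Set.not_nonempty_empty hne
  rw [if_pos (by simpa using hp)]
  exact pow_le_pow_left₀ (by positivity) (cellI_diam hN (k, q)) _

theorem tsum_term {N : ℕ} (hN : 2 ≤ N) :
    (∑' p : ℕ × ℕ × ℕ, ⨆ (_ : (cellI N p).Nonempty), dm (cellI N p) ^ (3 - 1)) ≤
      ENNReal.ofReal 168 := by
  have hN0 : (0 : ℝ) < N := by exact_mod_cast (by omega : 0 < N)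
  rw [ENNReal.tsum_prod']
  have h1 : ∀ k : ℕ, (∑' q : ℕ × ℕ, ⨆ (_ : (cellI N (k, q)).Nonempty),
      dm (cellI N (k, q)) ^ (3 - 1)) ≤ ENNReal.ofReal (84 * (1 / 2) ^ k) := by
    intro k
    refine (ENNReal.tsum_le_tsum (cellI_term hN k)).trans ?_
    rw [tsum_eq_sum (s := Finset.range (7 * N) ×ˢ Finset.range (3 * N * 2 ^ k))
      (fun q hq => by rw [if_neg hq])]
    rw [Finset.sum_congr rfl (fun q hq => if_pos hq), Finset.sum_const, Finset.card_product,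
      Finset.card_range, Finset.card_range, nsmul_eq_mul]
    have hη : 0 < eta N k := by unfold eta; positivity
    rw [← ENNReal.ofReal_pow (by positivity), ← ENNReal.ofReal_natCast,
      ← ENNReal.ofReal_mul (by positivity)]
    apply ENNReal.ofReal_le_ofReal
    push_cast
    unfold eta
    rw [_root_.one_div_pow]
    apply le_of_eq
    field_simp
    norm_num
  refine (ENNReal.tsum_le_tsum h1).trans ?_
  rw [← ENNReal.ofReal_tsum_of_nonneg (fun k => by positivity)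
    (summable_geometric_two.mul_left 84), tsum_mul_left, tsum_geometric_two]
  norm_num

theorem finite_covolume : ∃ F : Set (Fin 3 → ℝ), F ⊆ C ∧
      C ⊆ ⋃ w : W, (fun x => (rho w : Matrix (Fin 3) (Fin 3) ℝ) *ᵥ x) '' F ∧
      (⨆ (r : ENNReal) (_ : 0 < r),
        ⨅ (U : ℕ → Set (Fin 3 → ℝ)) (_ : F ⊆ ⋃ i, U i) (_ : ∀ i, U i ⊆ C)
          (_ : ∀ i, (⨆ x ∈ U i, ⨆ y ∈ U i, ENNReal.ofReal ((1 / 2 : ℝ) *
              Real.log (sInf {t : ℝ | t • y - x ∈ closure C} *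
                sInf {t : ℝ | t • x - y ∈ closure C}))) ≤ r),
          ∑' i, ⨆ (_ : (U i).Nonempty),
            (⨆ x ∈ U i, ⨆ y ∈ U i, ENNReal.ofReal ((1 / 2 : ℝ) *
              Real.log (sInf {t : ℝ | t • y - x ∈ closure C} *
                sInf {t : ℝ | t • x - y ∈ closure C}))) ^ (3 - 1)) < ⊤ := by
  refine ⟨F, fun x hx => hx.1, cover, ?_⟩
  refine lt_of_le_of_lt (iSup₂_le fun r hr => ?_) (ENNReal.ofReal_lt_top (r := 168))
  obtain ⟨N, hN, hNr⟩ : ∃ N : ℕ, 2 ≤ N ∧ ENNReal.ofReal (2 / N) ≤ r := by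
    rcases eq_or_ne r ⊤ with rfl | hr'
    · exact ⟨2, le_rfl, le_top⟩
    · have hrp : 0 < r.toReal := ENNReal.toReal_pos hr.ne' hr'
      obtain ⟨N, hN⟩ := exists_nat_gt (2 / r.toReal)
      refine ⟨max N 2, le_max_right _ _, ?_⟩
      rw [ENNReal.ofReal_le_iff_le_toReal hr']
      have h1 : (N : ℝ) ≤ (max N 2 : ℕ) := by exact_mod_cast le_max_left _ _
      have h2 : (0 : ℝ) < (max N 2 : ℕ) := by
        have : (2 : ℝ) ≤ (max N 2 : ℕ) := by exact_mod_cast le_max_right _ _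
        linarith
      rw [div_le_iff₀ h2]
      rw [div_lt_iff₀ hrp] at hN
      nlinarith
  let e : ℕ ≃ ℕ × ℕ × ℕ := (Denumerable.eqv (ℕ × ℕ × ℕ)).symm
  refine iInf_le_of_le (fun n => cellI N (e n)) ?_
  refine iInf_le_of_le ?_ ?_
  · intro x hx
    obtain ⟨k, i, j, hi, hj, hc⟩ := F_sub_cells hN hx
    rw [Set.mem_iUnion]
    refine ⟨e.symm (k, i, j), ?_⟩
    simp only [Equiv.apply_symm_apply]
    unfold cellI
    rw [if_pos ⟨hi, hj⟩]
    exact hc
  refine iInf_le_of_le ?_ ?_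
  · intro n x hx
    replace hx : x ∈ cellI N (e n) := hx
    unfold cellI at hx
    split_ifs at hx with hp
    · exact hx.1
    · exact absurd hx (Set.notMem_empty x)
  refine iInf_le_of_le ?_ ?_
  · intro n
    refine (cellI_diam hN (e n)).trans (le_trans ?_ hNr)
    apply ENNReal.ofReal_le_ofReal
    unfold eta
    have hN0 : (0 : ℝ) < N := by exact_mod_cast (by omega : 0 < N)
    rw [mul_one_div]
    apply div_le_div_of_nonneg_left (by norm_num) hN0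
    have : (1 : ℝ) ≤ 2 ^ (e n).1 := one_le_pow₀ (by norm_num)
    nlinarith
  · have h1 := e.tsum_eq (fun p => ⨆ (_ : (cellI N p).Nonempty), dm (cellI N p) ^ (3 - 1))
    have h2 := tsum_term hN
    rw [← h1] at h2
    exact h2

end Pool.Agent.H884R2.Cox
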