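import Pool.Agent.H306R2.RG.Defs
import Pool.Agent.H306R2.RG.StubsA
import Pool.Agent.H884R2.RZ_LIM1
import Pool.Agent.H903R2.RG_PG8
import Pool.Agent.H957R2.RG_PG4

set_option autoImplicit false

/-! Project RG, task LM1G: asymptotics of the mollified first moment for a family. -/

namespace Pool.Agent.H884R2.RG

open Finset Filter Topology MeasureTheory
open Pool.Agent.H306R2.RZ Pool.Agent.H306R2.RG
open Pool.Agent.H884R2.RZ (wt_mono wt_bdd wt_supp tf_finite js_mul abs_js_le abs_cas_le abs_Gk_le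
  not_coprime_zero odd_of_coprime cf_abs main_part main_lim floor_exp_le)

noncomputable section


open Classical in
theorem EAg_eq_sum (φ : FD) (F : ℝ → ℝ) (X : ℝ) (D : ℕ)
    (hD : ∀ d : ℕ, D ≤ d → F ((d : ℝ) / X) = 0) (f : ℕ → ℝ) :
    EAg φ F X f = (∑ d ∈ range D, if φ.A d then F ((d : ℝ) / X) * f d else 0) / X := by
  rw [EAg, tsum_eq_sum (s := range D)]
  intro d hd
  rw [mem_range, not_lt] at hd
  rw [hD d hd, zero_mul, ite_self]

theorem EAg_sum {ι : Type*} (φ : FD) (F : ℝ → ℝ) (hF : TF F) (X : ℝ) (hX : 0 < X) (S : Finset ι)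
    (a : ι → ℝ) (g : ι → ℕ → ℝ) :
    EAg φ F X (fun d => ∑ i ∈ S, a i * g i d) = ∑ i ∈ S, a i * EAg φ F X (g i) := by
  classical
  obtain ⟨D, hD⟩ := tf_finite F hF X hX
  rw [EAg_eq_sum φ F X D hD]
  simp only [EAg_eq_sum φ F X D hD]
  rw [Finset.sum_div]
  have : ∀ i, a i * ((∑ d ∈ range D, if φ.A d then F ((d : ℝ) / X) * g i d else 0) / X) =
      ∑ d ∈ range D, a i * ((if φ.A d then F ((d : ℝ) / X) * g i d else 0) / X) := by
    intro i
    rw [Finset.sum_div, Finset.mul_sum]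
  simp only [this]
  rw [Finset.sum_comm]
  refine Finset.sum_congr rfl fun d _ => ?_
  by_cases hd : φ.A d
  · simp only [hd, if_true]
    rw [Finset.mul_sum, Finset.sum_div]
    refine Finset.sum_congr rfl fun i _ => ?_
    ring
  · simp [hd]

theorem jo_odd (φ : FD) (d : ℕ) {n : ℕ} (hn : Odd n) : jo φ d n = js (φ.e * (d : ℤ)) n := by
  rw [jo, if_pos hn]

theorem Ndg_eq (φ : FD) (q : ℕ) (hq : Even q) (L : ℝ) (hL : 0 < L) (s : ℝ) (w : ℝ → ℝ)
    (hw : Wt s w) (d : ℕ) :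
    Ndg φ q L w d = ∑ n ∈ Icc 1 ⌊Real.exp (s * L)⌋₊, if Nat.Coprime n q then
      js (φ.e * (d : ℤ)) n / Real.sqrt n * w (Real.log n / L) else 0 := by
  rw [Ndg, tsum_eq_sum (s := Icc 1 ⌊Real.exp (s * L)⌋₊)]
  · refine Finset.sum_congr rfl fun n _ => ?_
    by_cases hc : Nat.Coprime n q
    · rw [if_pos hc, if_pos hc, jo_odd φ d (odd_of_coprime hq hc)]
    · rw [if_neg hc, if_neg hc]
  intro n hn
  by_cases hc : Nat.Coprime n q
  · rw [if_pos hc]
    have hn0 : n ≠ 0 := by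
      rintro rfl
      exact not_coprime_zero hq hc
    by_cases hw0 : w (Real.log n / L) = 0
    · rw [hw0, mul_zero]
    · exact absurd (mem_Icc.2 ⟨Nat.one_le_iff_ne_zero.2 hn0, wt_supp hL hw hn0 hw0⟩) hn
  · rw [if_neg hc]

theorem Mdg_eq (φ : FD) (q : ℕ) (hq : Even q) (L : ℝ) (hL : 0 < L) (s : ℝ) (w : ℝ → ℝ)
    (hw : Wt s w) (d : ℕ) :
    Mdg φ q L w d = ∑ n ∈ Icc 1 ⌊Real.exp (s * L)⌋₊, if Nat.Coprime n q then
      ((ArithmeticFunction.moebius n : ℤ) : ℝ) *
      js (φ.e * (d : ℤ)) n / Real.sqrt n * w (Real.log n / L) else 0 := by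
  rw [Mdg, tsum_eq_sum (s := Icc 1 ⌊Real.exp (s * L)⌋₊)]
  · refine Finset.sum_congr rfl fun n _ => ?_
    by_cases hc : Nat.Coprime n q
    · rw [if_pos hc, if_pos hc, jo_odd φ d (odd_of_coprime hq hc)]
    · rw [if_neg hc, if_neg hc]
  intro n hn
  by_cases hc : Nat.Coprime n q
  · rw [if_pos hc]
    have hn0 : n ≠ 0 := by
      rintro rfl
      exact not_coprime_zero hq hc
    by_cases hw0 : w (Real.log n / L) = 0
    · rw [hw0, mul_zero]
    · exact absurd (mem_Icc.2 ⟨Nat.one_le_iff_ne_zero.2 hn0, wt_supp hL hw hn0 hw0⟩) hn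
  · rw [if_neg hc]

theorem prodg_eq (φ : FD) (q : ℕ) (hq : Even q) (L : ℝ) (hL : 0 < L) (s θ : ℝ) (w Q : ℝ → ℝ)
    (hw : Wt s w) (hQ : Wt θ Q) (d : ℕ) :
    Ndg φ q L w d * Mdg φ q L Q d =
      ∑ p ∈ Icc 1 ⌊Real.exp (s * L)⌋₊ ×ˢ Icc 1 ⌊Real.exp (θ * L)⌋₊,
        Pool.Agent.H884R2.RZ.cf q L w Q p * js (φ.e * (d : ℤ)) (p.1 * p.2) := by
  rw [Ndg_eq φ q hq L hL s w hw, Mdg_eq φ q hq L hL θ Q hQ, Finset.sum_mul_sum, Finset.sum_product]
  refine Finset.sum_congr rfl fun n hn => Finset.sum_congr rfl fun l hl => ?_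
  rw [mem_Icc] at hn hl
  rw [Pool.Agent.H884R2.RZ.cf]
  by_cases h1 : Nat.Coprime n q
  · by_cases h2 : Nat.Coprime l q
    · rw [if_pos h1, if_pos h2, if_pos ⟨h1, h2⟩, js_mul _ (by omega) (by omega)]
      have hn0 : Real.sqrt (n : ℝ) ≠ 0 := by
        apply (Real.sqrt_pos.2 _).ne'
        exact_mod_cast hn.1
      have hl0 : Real.sqrt (l : ℝ) ≠ 0 := by
        apply (Real.sqrt_pos.2 _).ne'
        exact_mod_cast hl.1
      field_simp
    · have h3 : ¬ (Nat.Coprime (n, l).1 q ∧ Nat.Coprime (n, l).2 q) := fun h => h2 h.2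
      rw [if_neg h2, if_neg h3, mul_zero, zero_mul]
  · have h3 : ¬ (Nat.Coprime (n, l).1 q ∧ Nat.Coprime (n, l).2 q) := fun h => h1 h.1
    rw [if_neg h1, if_neg h3, zero_mul, zero_mul]

theorem TOg_eq (φ : FD) (F : ℝ → ℝ) (hF : TF F) (X : ℝ) (hX : 0 < X) (q : ℕ) (hq : Even q) (L : ℝ)
    (hL : 0 < L) (s θ : ℝ) (w Q : ℝ → ℝ) (hw : Wt s w) (hQ : Wt θ Q) :
    TOg φ F X q L w Q = ∑ p ∈ Icc 1 ⌊Real.exp (s * L)⌋₊ ×ˢ Icc 1 ⌊Real.exp (θ * L)⌋₊,
        Pool.Agent.H884R2.RZ.cf q L w Q p * EAg φ F X (fun d => js (φ.e * (d : ℤ)) (p.1 * p.2)) := by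
  rw [TOg]
  simp only [prodg_eq φ q hq L hL s θ w Q hw hQ]
  exact EAg_sum φ F hF X hX _ (fun p => Pool.Agent.H884R2.RZ.cf q L w Q p)
    (fun p d => js (φ.e * (d : ℤ)) (p.1 * p.2))

/-- a bound keeping the square roots -/
theorem kf_abs (q : ℕ) (L : ℝ) (w Q : ℝ → ℝ) (B1 B2 : ℝ) (hB1 : 0 ≤ B1) (h1 : ∀ y, |w y| ≤ B1)
    (h2 : ∀ y, |Q y| ≤ B2) (hB2 : 0 ≤ B2)
    (p : ℕ × ℕ) (hp1 : 1 ≤ p.1) (hp2 : 1 ≤ p.2) :
    |Pool.Agent.H884R2.RZ.cf q L w Q p| ≤ B1 * B2 * (1 / Real.sqrt p.1 * (1 / Real.sqrt p.2)) := by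
  have hs1 : (0 : ℝ) < Real.sqrt p.1 := Real.sqrt_pos.2 (by exact_mod_cast hp1)
  have hs2 : (0 : ℝ) < Real.sqrt p.2 := Real.sqrt_pos.2 (by exact_mod_cast hp2)
  rw [Pool.Agent.H884R2.RZ.cf]
  by_cases h : Nat.Coprime p.1 q ∧ Nat.Coprime p.2 q
  · rw [if_pos h, abs_mul, abs_mul, abs_div, abs_of_pos (mul_pos hs1 hs2)]
    have hm : |((ArithmeticFunction.moebius p.2 : ℤ) : ℝ)| ≤ 1 := by
      have := ArithmeticFunction.abs_moebius_le_one (n := p.2)
      exact_mod_cast this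
    calc _ ≤ (1 / (Real.sqrt p.1 * Real.sqrt p.2)) * (B1 * B2) := by
          apply mul_le_mul _ _ (by positivity) (by positivity)
          · exact div_le_div_of_nonneg_right hm (mul_pos hs1 hs2).le
          · exact mul_le_mul (h1 _) (h2 _) (abs_nonneg _) hB1
      _ = _ := by
          field_simp
  · rw [if_neg h, abs_zero]; positivity

theorem sum_inv_sqrt (N : ℕ) : ∑ n ∈ Icc 1 N, 1 / Real.sqrt (n : ℝ) ≤ 2 * Real.sqrt N := by
  induction N with
  | zero => simp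
  | succ N ih =>
    rw [Finset.sum_Icc_succ_top (by omega)]
    have h1 : Real.sqrt ((N + 1 : ℕ) : ℝ) ^ 2 = N + 1 := by
      rw [Real.sq_sqrt (by positivity)]; push_cast; ring
    have h2 : Real.sqrt (N : ℝ) ^ 2 = N := Real.sq_sqrt (by positivity)
    have h3 : 0 < Real.sqrt ((N + 1 : ℕ) : ℝ) := Real.sqrt_pos.2 (by positivity)
    have h4 : 0 ≤ Real.sqrt (N : ℝ) := Real.sqrt_nonneg _
    have h5 : 1 / Real.sqrt ((N + 1 : ℕ) : ℝ) ≤
        2 * Real.sqrt ((N + 1 : ℕ) : ℝ) - 2 * Real.sqrt (N : ℝ) := by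
      rw [div_le_iff₀ h3]
      nlinarith [sq_nonneg (Real.sqrt ((N + 1 : ℕ) : ℝ) - Real.sqrt (N : ℝ))]
    linarith

/-- the error of the term `k = 0` -/
theorem dual_error (F : ℝ → ℝ) (hF : TF F) (A : ℕ) (hA : Even A) (hA2 : 2 ≤ A) (b : ℤ → ℝ)
    (hb1 : ∀ k, |b k| ≤ 1) (c1 : ℝ) (hc1 : c1 ≠ 0) :
    ∃ C : ℝ, 0 ≤ C ∧ ∀ (X : ℝ) (n : ℕ), 0 < X → Odd n →
      Summable (fun k : ℤ => b k * Gk k n * Ft F (c1 * k * X / n)) →
      |(∑' k : ℤ, b k * Gk k n * Ft F (c1 * k * X / n)) / n - b 0 * Gk 0 n * Ft F 0 / n| ≤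
        C * ((n : ℝ) / X) ^ A := by
  obtain ⟨C, hC⟩ := (Pool.Agent.H881R2.RZ.F1 F hF).2 0 A
  have hC0 : 0 ≤ C := by
    have := (abs_nonneg _).trans (hC 0)
    rwa [abs_zero, add_zero, one_pow, div_one] at this
  have hS : Summable (fun k : ℤ => 1 / (k : ℝ) ^ A) :=
    Real.summable_one_div_int_pow.2 (by omega)
  have hnn : ∀ k : ℤ, 0 ≤ 1 / (k : ℝ) ^ A := fun k => by
    have := hA.pow_nonneg (k : ℝ)
    positivity
  have hcA : 0 < c1 ^ A := hA.pow_pos hc1
  refine ⟨2 * C / c1 ^ A * ∑' k : ℤ, 1 / (k : ℝ) ^ A, ?_, ?_⟩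
  · have : 0 ≤ ∑' k : ℤ, 1 / (k : ℝ) ^ A := tsum_nonneg hnn
    positivity
  intro X n hX hn hsum
  have hn0 : (0 : ℝ) < n := by
    rcases hn with ⟨m, rfl⟩
    positivity
  rw [hsum.tsum_eq_add_tsum_ite 0]
  have h0 : b 0 * Gk 0 n * Ft F (c1 * (((0 : ℤ) : ℝ)) * X / n) = b 0 * Gk 0 n * Ft F 0 := by
    simp
  rw [h0, add_div, add_sub_cancel_left, abs_div, abs_of_pos hn0, div_le_iff₀ hn0]
  have hb : ∀ k : ℤ, |if k = 0 then 0 else b k * Gk k n * Ft F (c1 * k * X / n)| ≤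
        (2 * n * C * ((n : ℝ) / X) ^ A / c1 ^ A) * (1 / (k : ℝ) ^ A) := by
    intro k
    by_cases hk : k = 0
    · rw [if_pos hk, abs_zero]
      have := hnn k
      positivity
    · rw [if_neg hk, abs_mul, abs_mul]
      have hk' : (k : ℝ) ≠ 0 := by exact_mod_cast hk
      have h1 := hC (c1 * k * X / n)
      rw [iteratedDeriv_zero] at h1
      have h2 : |c1 * k * X / n| ≤ 1 + |c1 * k * X / n| := by linarith
      have h3 : 0 < |c1 * k * X / n| := by
        apply abs_pos.2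
        positivity
      have h4 : |Ft F (c1 * k * X / n)| ≤ C / |c1 * k * X / n| ^ A :=
        h1.trans (div_le_div_of_nonneg_left hC0 (pow_pos h3 _) (pow_le_pow_left₀ h3.le h2 _))
      have h6 : |b k| * |Gk k n| ≤ 2 * n := by
        calc |b k| * |Gk k n| ≤ 1 * (2 * n) :=
              mul_le_mul (hb1 k) (abs_Gk_le k n) (abs_nonneg _) zero_le_one
          _ = 2 * n := one_mul _
      calc |b k| * |Gk k n| * |Ft F (c1 * k * X / n)| ≤
            (2 * n) * (C / |c1 * k * X / n| ^ A) :=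
            mul_le_mul h6 h4 (abs_nonneg _) (by positivity)
        _ = _ := by
            rw [hA.pow_abs]
            have e2 : (c1 * k * X / n) ^ A = c1 ^ A * (k : ℝ) ^ A / ((n : ℝ) / X) ^ A := by
              rw [← mul_pow, ← div_pow]
              congr 1
              field_simp
            rw [e2]
            have h5 : ((n : ℝ) / X) ^ A ≠ 0 := by positivity
            have h7 : (k : ℝ) ^ A ≠ 0 := by positivity
            have h8 : c1 ^ A ≠ 0 := hcA.ne'
            field_simp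
  have hbs : Summable (fun k : ℤ => (2 * n * C * ((n : ℝ) / X) ^ A / c1 ^ A) * (1 / (k : ℝ) ^ A)) :=
    hS.mul_left _
  have h5 : |∑' k : ℤ, if k = 0 then 0 else b k * Gk k n * Ft F (c1 * k * X / n)| ≤
      ∑' k : ℤ, (2 * n * C * ((n : ℝ) / X) ^ A / c1 ^ A) * (1 / (k : ℝ) ^ A) := by
    rw [← Real.norm_eq_abs]
    exact tsum_of_norm_bounded hbs.hasSum (fun k => by rw [Real.norm_eq_abs]; exact hb k)
  refine h5.trans (le_of_eq ?_)
  rw [tsum_mul_left]
  ring

/-- the asymptotics of the character averages needed for the first moment -/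
def Good (φ : FD) (F : ℝ → ℝ) : Prop :=
  ∀ A : ℕ, Even A → 2 ≤ A → ∃ C C' : ℝ, 0 ≤ C ∧ 0 ≤ C' ∧ ∀ (X : ℝ) (n : ℕ), 0 < X → Odd n →
    |EAg φ F X (fun d => js (φ.e * (d : ℤ)) n) - φ.δ * (Gk 0 n * Ft F 0 / n)| ≤
      C * ((n : ℝ) / X) ^ A + C' / Real.sqrt X

theorem LM1_of_good (φ : FD) (F : ℝ → ℝ) (hF : TF F) (hG : Good φ F) (q : ℕ) (hq : Even q)
    (hq0 : q ≠ 0) (c : ℝ) (hc : 0 < c)
    (s θ : ℝ) (hs : 0 < s) (hθ : 0 < θ) (h : s + θ < 1) (w Q : ℝ → ℝ)
    (h1 : Wt s w) (h2 : Wt θ Q) :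
    Tendsto (fun L : ℝ => TOg φ F (c * Real.exp L) q L w Q) atTop
      (𝓝 (φ.δ * Ft F 0 * (mn w Q / 2))) := by
  obtain ⟨B1, hB1, hw⟩ := wt_bdd h1
  obtain ⟨B2, hB2, hQ⟩ := wt_bdd h2
  -- choice of the exponent
  obtain ⟨m, hm⟩ := exists_nat_gt ((s + θ) / (1 - (s + θ)))
  set A : ℕ := 2 * (m + 1) with hA
  have h1st : 0 < 1 - (s + θ) := by linarith
  have hAm : (s + θ) < A * (1 - (s + θ)) := by
    rw [div_lt_iff₀ h1st] at hm
    have : (m : ℝ) ≤ A := by rw [hA]; push_cast; linarith [(Nat.cast_nonneg m : (0 : ℝ) ≤ m)]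
    nlinarith
  obtain ⟨C, C', hC, hC', hE⟩ := hG A ⟨m + 1, by omega⟩ (by omega)
  have hmain := main_lim q hq0 (max s θ) w Q (wt_mono (le_max_left _ _) h1)
    (wt_mono (le_max_right _ _) h2)
  have hmain2 := hmain.const_mul (φ.δ * Ft F 0)
  -- the error
  have herr : Tendsto (fun L : ℝ => TOg φ F (c * Real.exp L) q L w Q -
      φ.δ * Ft F 0 * ∑' a : Fin 2 → ℕ, t3c q a * (w (Real.log (a 0) / L) * Q (Real.log (a 1) / L)))
      atTop (𝓝 0) := by
    have hb : Tendsto (fun L : ℝ => (B1 * B2 * (C * (1 / c) ^ A)) *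
        Real.exp (-((A * (1 - (s + θ)) - (s + θ)) * L)) +
        (B1 * B2 * 4 * C' / Real.sqrt c) * Real.exp (-(((1 - (s + θ)) / 2) * L))) atTop (𝓝 0) := by
      have t1 : Tendsto (fun L : ℝ => Real.exp (-((A * (1 - (s + θ)) - (s + θ)) * L))) atTop (𝓝 0) := by
        apply Real.tendsto_exp_neg_atTop_nhds_zero.comp
        exact tendsto_id.const_mul_atTop (by linarith)
      have t2 : Tendsto (fun L : ℝ => Real.exp (-(((1 - (s + θ)) / 2) * L))) atTop (𝓝 0) := by
        apply Real.tendsto_exp_neg_atTop_nhds_zero.comp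
        exact tendsto_id.const_mul_atTop (by linarith)
      simpa using (t1.const_mul (B1 * B2 * (C * (1 / c) ^ A))).add
        (t2.const_mul (B1 * B2 * 4 * C' / Real.sqrt c))
    refine squeeze_zero_norm' ?_ hb
    filter_upwards [eventually_gt_atTop (0 : ℝ)] with L hL
    have hX : 0 < c * Real.exp L := by positivity
    have hmp : φ.δ * Ft F 0 * ∑' a : Fin 2 → ℕ, t3c q a *
        (w (Real.log (a 0) / L) * Q (Real.log (a 1) / L)) =
        ∑ p ∈ Icc 1 ⌊Real.exp (s * L)⌋₊ ×ˢ Icc 1 ⌊Real.exp (θ * L)⌋₊,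
          Pool.Agent.H884R2.RZ.cf q L w Q p * (φ.δ * (Gk 0 (p.1 * p.2) * Ft F 0 / ((p.1 * p.2 : ℕ) : ℝ))) := by
      have e := main_part F q hq L hL s θ w Q h1 h2
      have e2 : φ.δ * Ft F 0 * ∑' a : Fin 2 → ℕ, t3c q a *
        (w (Real.log (a 0) / L) * Q (Real.log (a 1) / L)) = 2 * φ.δ * (1 / 2 * Ft F 0 *
          ∑' a : Fin 2 → ℕ, t3c q a *
        (w (Real.log (a 0) / L) * Q (Real.log (a 1) / L))) := by ring
      rw [e2, ← e, Finset.mul_sum]
      refine Finset.sum_congr rfl fun p hp => ?_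
      rw [mem_product, mem_Icc, mem_Icc] at hp
      obtain ⟨⟨hp1, -⟩, ⟨hp2, -⟩⟩ := hp
      have hp0 : (((p.1 * p.2 : ℕ)) : ℝ) ≠ 0 := by
        have : 0 < p.1 * p.2 := Nat.mul_pos hp1 hp2
        exact_mod_cast this.ne'
      rw [D0]
      field_simp
    rw [TOg_eq φ F hF _ hX q hq L hL s θ w Q h1 h2, hmp,
      ← Finset.sum_sub_distrib, Real.norm_eq_abs]
    set Ns : ℕ := ⌊Real.exp (s * L)⌋₊ with hNs
    set Nt : ℕ := ⌊Real.exp (θ * L)⌋₊ with hNt
    have hNs' : (Ns : ℝ) ≤ Real.exp (s * L) := floor_exp_le _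
    have hNt' : (Nt : ℝ) ≤ Real.exp (θ * L) := floor_exp_le _
    have hst : Real.exp (s * L) * Real.exp (θ * L) = Real.exp ((s + θ) * L) := by
      rw [← Real.exp_add]; ring_nf
    have hsX : 0 < Real.sqrt (c * Real.exp L) := Real.sqrt_pos.2 hX
    calc |∑ p ∈ Icc 1 Ns ×ˢ Icc 1 Nt, (Pool.Agent.H884R2.RZ.cf q L w Q p * EAg φ F (c * Real.exp L)
            (fun d => js (φ.e * (d : ℤ)) (p.1 * p.2)) -
              Pool.Agent.H884R2.RZ.cf q L w Q p * (φ.δ * (Gk 0 (p.1 * p.2) * Ft F 0 / ((p.1 * p.2 : ℕ) : ℝ))))|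
        ≤ ∑ p ∈ Icc 1 Ns ×ˢ Icc 1 Nt, |(Pool.Agent.H884R2.RZ.cf q L w Q p * EAg φ F (c * Real.exp L)
            (fun d => js (φ.e * (d : ℤ)) (p.1 * p.2)) -
              Pool.Agent.H884R2.RZ.cf q L w Q p * (φ.δ * (Gk 0 (p.1 * p.2) * Ft F 0 / ((p.1 * p.2 : ℕ) : ℝ))))| :=
          Finset.abs_sum_le_sum_abs _ _
      _ ≤ ∑ p ∈ Icc 1 Ns ×ˢ Icc 1 Nt, ((B1 * B2) * (C * (Real.exp ((s + θ) * L) /
            (c * Real.exp L)) ^ A) + (B1 * B2 * (C' / Real.sqrt (c * Real.exp L))) *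
              (1 / Real.sqrt p.1 * (1 / Real.sqrt p.2))) := by
          refine Finset.sum_le_sum fun p hp => ?_
          rw [mem_product, mem_Icc, mem_Icc] at hp
          obtain ⟨⟨hp1, hp1'⟩, ⟨hp2, hp2'⟩⟩ := hp
          rw [← mul_sub, abs_mul]
          by_cases hcp : Nat.Coprime p.1 q ∧ Nat.Coprime p.2 q
          · have hodd : Odd (p.1 * p.2) := (odd_of_coprime hq hcp.1).mul (odd_of_coprime hq hcp.2)
            have b1 := cf_abs q L w Q B1 B2 hB1 hw hQ hB2 p hp1 hp2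
            have b2 := kf_abs q L w Q B1 B2 hB1 hw hQ hB2 p hp1 hp2
            have b3 := hE (c * Real.exp L) (p.1 * p.2) hX hodd
            have b4 : C * (((p.1 * p.2 : ℕ) : ℝ) / (c * Real.exp L)) ^ A ≤
                C * (Real.exp ((s + θ) * L) / (c * Real.exp L)) ^ A := by
              apply mul_le_mul_of_nonneg_left _ hC
              apply pow_le_pow_left₀ (by positivity)
              apply div_le_div_of_nonneg_right _ hX.le
              rw [← hst]
              push_cast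
              have e1 : (p.1 : ℝ) ≤ Real.exp (s * L) := le_trans (by exact_mod_cast hp1') hNs'
              have e2 : (p.2 : ℝ) ≤ Real.exp (θ * L) := le_trans (by exact_mod_cast hp2') hNt'
              exact mul_le_mul e1 e2 (Nat.cast_nonneg _) (Real.exp_pos _).le
            calc |Pool.Agent.H884R2.RZ.cf q L w Q p| * |EAg φ F (c * Real.exp L)
                  (fun d => js (φ.e * (d : ℤ)) (p.1 * p.2)) -
                  φ.δ * (Gk 0 (p.1 * p.2) * Ft F 0 / ((p.1 * p.2 : ℕ) : ℝ))| ≤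
                |Pool.Agent.H884R2.RZ.cf q L w Q p| * (C * (Real.exp ((s + θ) * L) / (c * Real.exp L)) ^ A +
                  C' / Real.sqrt (c * Real.exp L)) := by
                    apply mul_le_mul_of_nonneg_left _ (abs_nonneg _)
                    linarith
              _ = |Pool.Agent.H884R2.RZ.cf q L w Q p| * (C * (Real.exp ((s + θ) * L) / (c * Real.exp L)) ^ A) +
                  |Pool.Agent.H884R2.RZ.cf q L w Q p| * (C' / Real.sqrt (c * Real.exp L)) := by ring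
              _ ≤ (B1 * B2) * (C * (Real.exp ((s + θ) * L) / (c * Real.exp L)) ^ A) +
                  (B1 * B2 * (1 / Real.sqrt p.1 * (1 / Real.sqrt p.2))) *
                    (C' / Real.sqrt (c * Real.exp L)) := by
                    apply add_le_add
                    · exact mul_le_mul_of_nonneg_right b1 (by positivity)
                    · exact mul_le_mul_of_nonneg_right b2 (by positivity)
              _ = _ := by ring
          · rw [Pool.Agent.H884R2.RZ.cf, if_neg hcp, abs_zero, zero_mul]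
            positivity
      _ = (Ns : ℝ) * Nt * ((B1 * B2) * (C * (Real.exp ((s + θ) * L) / (c * Real.exp L)) ^ A)) +
            (B1 * B2 * (C' / Real.sqrt (c * Real.exp L))) *
              ((∑ n ∈ Icc 1 Ns, 1 / Real.sqrt (n : ℝ)) * (∑ n ∈ Icc 1 Nt, 1 / Real.sqrt (n : ℝ))) := by
          rw [Finset.sum_add_distrib, Finset.sum_const, card_product, Nat.card_Icc, Nat.card_Icc,
            nsmul_eq_mul, ← Finset.mul_sum, Finset.sum_mul_sum, Finset.sum_product]
          push_cast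
          simp
      _ ≤ Real.exp ((s + θ) * L) *
            ((B1 * B2) * (C * (Real.exp ((s + θ) * L) / (c * Real.exp L)) ^ A)) +
            (B1 * B2 * (C' / Real.sqrt (c * Real.exp L))) *
              (4 * Real.exp ((s + θ) * L / 2)) := by
          apply add_le_add
          · apply mul_le_mul_of_nonneg_right _ (by positivity)
            rw [← hst]
            exact mul_le_mul hNs' hNt' (Nat.cast_nonneg _) (Real.exp_pos _).le
          · apply mul_le_mul_of_nonneg_left _ (by positivity)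
            have g1 : ∑ n ∈ Icc 1 Ns, 1 / Real.sqrt (n : ℝ) ≤ 2 * Real.exp (s * L / 2) := by
              refine (sum_inv_sqrt Ns).trans ?_
              apply mul_le_mul_of_nonneg_left _ (by norm_num)
              rw [Real.exp_half]
              exact Real.sqrt_le_sqrt hNs'
            have g2 : ∑ n ∈ Icc 1 Nt, 1 / Real.sqrt (n : ℝ) ≤ 2 * Real.exp (θ * L / 2) := by
              refine (sum_inv_sqrt Nt).trans ?_
              apply mul_le_mul_of_nonneg_left _ (by norm_num)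
              rw [Real.exp_half]
              exact Real.sqrt_le_sqrt hNt'
            have g3 : 0 ≤ ∑ n ∈ Icc 1 Nt, 1 / Real.sqrt (n : ℝ) :=
              Finset.sum_nonneg fun n _ => by positivity
            calc _ ≤ (2 * Real.exp (s * L / 2)) * (2 * Real.exp (θ * L / 2)) :=
                  mul_le_mul g1 g2 g3 (by positivity)
              _ = 4 * (Real.exp (s * L / 2) * Real.exp (θ * L / 2)) := by ring
              _ = _ := by rw [← Real.exp_add]; ring_nf
      _ = _ := by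
          have e1 : Real.exp ((s + θ) * L) / (c * Real.exp L) =
              (1 / c) * Real.exp (-((1 - (s + θ)) * L)) := by
            rw [show -((1 - (s + θ)) * L) = (s + θ) * L - L by ring, Real.exp_sub]
            field_simp
          have e3 : Real.exp (-(((1 - (s + θ)) / 2) * L)) =
              Real.exp ((s + θ) * L / 2) * (Real.exp (L / 2))⁻¹ := by
            rw [← Real.exp_neg, ← Real.exp_add]; ring_nf
          have e4 : Real.sqrt (c * Real.exp L) = Real.sqrt c * Real.exp (L / 2) := by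
            rw [Real.sqrt_mul hc.le, Real.exp_half]
          rw [e1, mul_pow, ← Real.exp_nat_mul, e3, e4]
          have e2 : Real.exp (-((A * (1 - (s + θ)) - (s + θ)) * L)) =
              Real.exp ((s + θ) * L) * Real.exp ((A : ℝ) * -((1 - (s + θ)) * L)) := by
            rw [← Real.exp_add]; ring_nf
          rw [e2]
          have hsc : Real.sqrt c ≠ 0 := (Real.sqrt_pos.2 hc).ne'
          have hel : Real.exp (L / 2) ≠ 0 := (Real.exp_pos _).ne'
          field_simp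
  have := herr.add hmain2
  simpa using this

open StubsA

theorem good8 (ε : ℤ) (hε : ε = 1 ∨ ε = -1) (F : ℝ → ℝ) (hF : TF F) : Good (F8 ε) F := by
  intro A hA hA2
  have hε0 : ((ε : ℝ) / 2) ≠ 0 := by rcases hε with rfl | rfl <;> norm_num
  obtain ⟨C, hC, h⟩ := dual_error F hF A hA hA2 bb8 (by
    intro k; rw [bb8, abs_pow, abs_neg, abs_one, one_pow]) ((ε : ℝ) / 2) hε0
  refine ⟨1 / 2 * C, 0, by positivity, le_refl _, fun X n hX hn => ?_⟩
  obtain ⟨hsum, heq⟩ := Pool.Agent.H903R2.RGPG8.PG8 ε hε F hF X hX n hn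
  have h1 := h X n hX hn hsum
  have h0 : bb8 0 = 1 := by simp [bb8]
  rw [h0, one_mul] at h1
  rw [heq, zero_div, add_zero]
  have hδ : (F8 ε).δ = 1 / 2 := rfl
  rw [hδ, ← mul_sub, abs_mul, abs_of_pos (by norm_num : (0 : ℝ) < 1 / 2), mul_assoc]
  exact mul_le_mul_of_nonneg_left h1 (by norm_num)

theorem good4 (ε : ℤ) (hε : ε = 1 ∨ ε = -1) (F : ℝ → ℝ) (hF : TF F) : Good (F4 ε) F := by
  intro A hA hA2
  have hε0 : ((ε : ℝ) / 4) ≠ 0 := by rcases hε with rfl | rfl <;> norm_num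
  obtain ⟨C, hC, h⟩ := dual_error F hF A hA hA2 bb4 (by
    intro k; rw [bb4]; split_ifs <;> simp) ((ε : ℝ) / 4) hε0
  refine ⟨1 / 4 * C, 0, by positivity, le_refl _, fun X n hX hn => ?_⟩
  obtain ⟨hsum, heq⟩ := Pool.Agent.H957R2.RGPG.PG4 ε hε F hF X hX n hn
  have h1 := h X n hX hn hsum
  have h0 : bb4 0 = 1 := by simp [bb4]
  rw [h0, one_mul] at h1
  rw [heq, zero_div, add_zero]
  have hδ : (F4 ε).δ = 1 / 4 := rfl
  rw [hδ, ← mul_sub, abs_mul, abs_of_pos (by norm_num : (0 : ℝ) < 1 / 4), mul_assoc]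
  exact mul_le_mul_of_nonneg_left h1 (by norm_num)

/-- the squares contribute little -/
theorem squares (ε c : ℤ) (hε : ε = 1 ∨ ε = -1) (hc : c = 1 ∨ c = 5) (F : ℝ → ℝ) (hF : TF F) :
    ∃ C' : ℝ, 0 ≤ C' ∧ ∀ (X : ℝ) (n : ℕ), 0 < X →
      |EAg (F1 ε c) F X (fun d => js (ε * (d : ℤ)) n) -
        EAg (FF1 ε c) F X (fun d => js (ε * (d : ℤ)) n)| ≤ C' / Real.sqrt X := by
  classical
  obtain ⟨R, hR⟩ := hF.cpt.isBounded.exists_norm_le
  obtain ⟨B, hB⟩ := hF.cpt.exists_bound_of_continuous hF.smooth.continuous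
  have hB0 : 0 ≤ B := (norm_nonneg _).trans (hB 0)
  refine ⟨B * Real.sqrt (max R 0), by positivity, fun X n hX => ?_⟩
  have hsX : 0 < Real.sqrt X := Real.sqrt_pos.2 hX
  have hcut : ∀ d : ℕ, F ((d : ℝ) / X) ≠ 0 → (d : ℝ) ≤ max R 0 * X := by
    intro d hd
    have h1 : ((d : ℝ) / X) ∈ tsupport F := subset_tsupport _ hd
    have h2 := hR _ h1
    rw [Real.norm_eq_abs, abs_of_nonneg (by positivity), div_le_iff₀ hX] at h2
    exact h2.trans (mul_le_mul_of_nonneg_right (le_max_left _ _) hX.le)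
  set M : ℕ := ⌊Real.sqrt (max R 0 * X)⌋₊ with hM
  obtain ⟨D, hD⟩ := tf_finite F hF X hX
  rw [EAg_eq_sum _ F X D hD, EAg_eq_sum _ F X D hD, ← sub_div, ← Finset.sum_sub_distrib, abs_div,
    abs_of_pos hX]
  set T : Finset ℕ := (Icc 1 M).image (fun m => m ^ 2) with hT
  have hterm : ∀ d ∈ range D, |(if (F1 ε c).A d then F ((d : ℝ) / X) * js (ε * (d : ℤ)) n else 0) -
      (if (FF1 ε c).A d then F ((d : ℝ) / X) * js (ε * (d : ℤ)) n else 0)| ≤
      if d ∈ T then B else 0 := by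
    intro d _
    by_cases hF0 : F ((d : ℝ) / X) = 0
    · rw [hF0, zero_mul, ite_self, ite_self, sub_zero, abs_zero]
      split_ifs <;> first | exact hB0 | exact le_refl _
    by_cases h1 : (FF1 ε c).A d
    · by_cases h2 : IsSquare (ε * (d : ℤ))
      · have hA : ¬ (F1 ε c).A d := fun h => h.2 h2
        rw [if_neg hA, if_pos h1, zero_sub, abs_neg, abs_mul]
        have hdT : d ∈ T := by
          rw [hT, mem_image]
          obtain ⟨r, hr⟩ := h2
          have hd0 : d ≠ 0 := by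
            rintro rfl
            change (ε * ((0 : ℕ) : ℤ)) % 8 = c at h1
            simp at h1
            omega
          have hpos : (0 : ℤ) ≤ ε * (d : ℤ) := by rw [hr]; exact mul_self_nonneg r
          have hε1 : ε = 1 := by
            rcases hε with h | h
            · exact h
            · exfalso
              rw [h] at hpos
              have : (0 : ℤ) < d := by exact_mod_cast Nat.pos_of_ne_zero hd0
              linarith
          rw [hε1, one_mul] at hr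
          have hr2 : d = r.natAbs ^ 2 := by
            have : (d : ℤ) = ((r.natAbs ^ 2 : ℕ) : ℤ) := by
              push_cast
              rw [sq_abs, hr, sq]
            exact_mod_cast this
          refine ⟨r.natAbs, ?_, hr2.symm⟩
          rw [mem_Icc]
          constructor
          · rw [Nat.one_le_iff_ne_zero]
            intro h0
            rw [h0] at hr2
            exact hd0 (by rw [hr2]; norm_num)
          · rw [hM]
            apply Nat.le_floor
            apply Real.le_sqrt_of_sq_le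
            have := hcut d hF0
            rw [hr2] at this
            push_cast at this ⊢
            exact this
        rw [if_pos hdT]
        calc |F ((d : ℝ) / X)| * |js (ε * (d : ℤ)) n| ≤ B * 1 :=
              mul_le_mul (hB _) (abs_js_le _ _) (abs_nonneg _) hB0
          _ = B := mul_one _
      · have hA : (F1 ε c).A d := ⟨h1, h2⟩
        rw [if_pos hA, if_pos h1, sub_self, abs_zero]
        split_ifs <;> first | exact hB0 | exact le_refl _
    · have hA : ¬ (F1 ε c).A d := fun h => h1 h.1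
      rw [if_neg hA, if_neg h1, sub_zero, abs_zero]
      split_ifs <;> first | exact hB0 | exact le_refl _
  have hbound : |∑ d ∈ range D, ((if (F1 ε c).A d then F ((d : ℝ) / X) * js (ε * (d : ℤ)) n else 0) -
      (if (FF1 ε c).A d then F ((d : ℝ) / X) * js (ε * (d : ℤ)) n else 0))| ≤ B * M := by
    calc _ ≤ ∑ d ∈ range D, |((if (F1 ε c).A d then F ((d : ℝ) / X) * js (ε * (d : ℤ)) n else 0) -
          (if (FF1 ε c).A d then F ((d : ℝ) / X) * js (ε * (d : ℤ)) n else 0))| :=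
          Finset.abs_sum_le_sum_abs _ _
      _ ≤ ∑ d ∈ range D, (if d ∈ T then B else 0) := Finset.sum_le_sum hterm
      _ = ((range D).filter (fun d => d ∈ T)).card * B := by
          rw [← Finset.sum_filter, Finset.sum_const, nsmul_eq_mul]
      _ ≤ (T.card : ℝ) * B := by
          apply mul_le_mul_of_nonneg_right _ hB0
          exact_mod_cast Finset.card_le_card (fun d hd => (Finset.mem_filter.1 hd).2)
      _ ≤ (M : ℝ) * B := by
          apply mul_le_mul_of_nonneg_right _ hB0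
          have := Finset.card_image_le (s := Icc 1 M) (f := fun m => m ^ 2)
          rw [Nat.card_Icc, Nat.add_sub_cancel] at this
          exact_mod_cast this
      _ = B * M := mul_comm _ _
  have hMle : (M : ℝ) ≤ Real.sqrt (max R 0) * Real.sqrt X := by
    rw [← Real.sqrt_mul (le_max_right _ _)]
    exact Nat.floor_le (Real.sqrt_nonneg _)
  rw [div_le_div_iff₀ hX hsX]
  have hXX : Real.sqrt X * Real.sqrt X = X := Real.mul_self_sqrt hX.le
  calc _ ≤ (B * M) * Real.sqrt X := mul_le_mul_of_nonneg_right hbound hsX.le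
    _ ≤ (B * (Real.sqrt (max R 0) * Real.sqrt X)) * Real.sqrt X := by
        apply mul_le_mul_of_nonneg_right _ hsX.le
        exact mul_le_mul_of_nonneg_left hMle hB0
    _ = B * Real.sqrt (max R 0) * (Real.sqrt X * Real.sqrt X) := by ring
    _ = _ := by rw [hXX]

theorem good1 (ε c : ℤ) (hε : ε = 1 ∨ ε = -1) (hc : c = 1 ∨ c = 5) (F : ℝ → ℝ) (hF : TF F) :
    Good (F1 ε c) F := by
  intro A hA hA2
  have hε4 : ((ε : ℝ) / 4) ≠ 0 := by rcases hε with rfl | rfl <;> norm_num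
  have hε8 : ((ε : ℝ) / 8) ≠ 0 := by rcases hε with rfl | rfl <;> norm_num
  obtain ⟨C1, hC1, h1⟩ := dual_error F hF A hA hA2 bb1 (by
    intro k; rw [bb1]; split_ifs <;> simp) ((ε : ℝ) / 4) hε4
  obtain ⟨C2, hC2, h2⟩ := dual_error F hF A hA hA2 bb2 (by
    intro k; rw [bb2]; split_ifs <;> simp) ((ε : ℝ) / 8) hε8
  obtain ⟨C', hC', h3⟩ := squares ε c hε hc F hF
  set g : ℝ := (FF1 ε c).η * Real.sqrt 2 / 8 with hg
  refine ⟨1 / 8 * C1 + |g| * C2, C', by positivity, hC', fun X n hX hn => ?_⟩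
  obtain ⟨hsum1, hsum2, heq⟩ := Pool.Agent.H957R2.RGPG.PG1 ε c hε hc F hF X hX n hn
  have e1 := h1 X n hX hn hsum1
  have e2 := h2 X n hX hn hsum2
  have e3 := h3 X n hX
  have h01 : bb1 0 = 1 := by simp [bb1]
  have h02 : bb2 0 = 0 := by simp [bb2]
  rw [h01, one_mul] at e1
  rw [h02, zero_mul, zero_mul, zero_div, sub_zero] at e2
  have hδ : (F1 ε c).δ = 1 / 8 := rfl
  have he : (F1 ε c).e = ε := rfl
  rw [hδ, he]
  rw [heq] at e3
  set S1 : ℝ := (∑' k : ℤ, bb1 k * Gk k n * Ft F ((ε : ℝ) / 4 * k * X / n)) / n with hS1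
  set S2 : ℝ := (∑' k : ℤ, bb2 k * Gk k n * Ft F ((ε : ℝ) / 8 * k * X / n)) / n with hS2
  set E : ℝ := EAg (F1 ε c) F X (fun d => js (ε * (d : ℤ)) n) with hE
  have e4 : E - 1 / 8 * (Gk 0 n * Ft F 0 / n) = (E - (1 / 8 * S1 + g * S2)) +
      1 / 8 * (S1 - Gk 0 n * Ft F 0 / n) + g * S2 := by ring
  rw [e4]
  calc _ ≤ |E - (1 / 8 * S1 + g * S2)| + |1 / 8 * (S1 - Gk 0 n * Ft F 0 / n)| + |g * S2| :=
        abs_add_three _ _ _
    _ ≤ C' / Real.sqrt X + 1 / 8 * (C1 * ((n : ℝ) / X) ^ A) + |g| * (C2 * ((n : ℝ) / X) ^ A) := by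
        apply add_le_add (add_le_add e3 _)
        · rw [abs_mul]
          exact mul_le_mul_of_nonneg_left e2 (abs_nonneg _)
        · rw [abs_mul, abs_of_pos (by norm_num : (0 : ℝ) < 1 / 8)]
          exact mul_le_mul_of_nonneg_left e1 (by norm_num)
    _ = _ := by ring

theorem LM1G (φ : FD) (hφ : Fam φ) (F : ℝ → ℝ) (hF : TF F)
    (q : ℕ) (hq : Even q) (hq0 : q ≠ 0) (c : ℝ) (hc : 0 < c) (s θ : ℝ) (hA : Adm2 s θ)
    (w Q : ℝ → ℝ) (h1 : Wt s w) (h2 : Wt θ Q) :
    Tendsto (fun L : ℝ => TOg φ F (c * Real.exp L) q L w Q) atTop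
      (𝓝 (φ.δ * Ft F 0 * (mn w Q / 2))) := by
  have hG : Good φ F := by
    obtain ⟨ε, hε, h | h | h | h⟩ := hφ
    · rw [h]; exact good8 ε hε F hF
    · rw [h]; exact good4 ε hε F hF
    · rw [h]; exact good1 ε 1 hε (Or.inl rfl) F hF
    · rw [h]; exact good1 ε 5 hε (Or.inr rfl) F hF
  have hs := hA.hs
  exact LM1_of_good φ F hF hG q hq hq0 c hc s θ (by linarith) hA.hθ hA.hst w Q h1 h2

end

end Pool.Agent.H884R2.RG
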